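import Mathlib

set_option autoImplicit false
set_option linter.unusedSectionVars false

namespace Pool.Agent.Helper889

/-- finite binary trees -/
inductive Tr : Type
  | leaf : Tr
  | node : Tr → Tr → Tr
  deriving DecidableEq

namespace Tr

/-- number of leaves -/
def nl : Tr → ℕ
  | leaf => 1
  | node l r => nl l + nl r

theorem nl_pos (t : Tr) : 0 < nl t := by
  cases t with
  | leaf => simp [nl]
  | node l r => simp only [nl]; have := nl_pos l; omega

/-- the map of `[0,1]` onto `[0, nl t]` that sends each leaf interval affinely to a unit interval -/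
noncomputable def phi : Tr → ℝ → ℝ
  | leaf, x => x
  | node l r, x => if x ≤ 1/2 then phi l (2 * x) else nl l + phi r (2 * x - 1)

/-- the inverse map -/
noncomputable def psi : Tr → ℝ → ℝ
  | leaf, y => y
  | node l r, y => if y ≤ nl l then psi l y / 2 else (1 + psi r (y - nl l)) / 2

theorem phi_zero (t : Tr) : phi t 0 = 0 := by
  induction t with
  | leaf => rfl
  | node l r ihl ihr => simp [phi, ihl]

theorem phi_one (t : Tr) : phi t 1 = nl t := by
  induction t with
  | leaf => simp [phi, nl]
  | node l r ihl ihr =>
    simp only [phi, nl]
    rw [if_neg (by norm_num)]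
    norm_num [ihr]

theorem phi_mono (t : Tr) : StrictMono (phi t) := by
  induction t with
  | leaf => intro a b h; exact h
  | node l r ihl ihr =>
    intro a b h
    simp only [phi]
    by_cases hb : b ≤ 1/2
    · rw [if_pos (h.le.trans hb), if_pos hb]
      exact ihl (by linarith)
    · push Not at hb
      rw [if_neg (not_le.2 hb)]
      have h2 : 0 < phi r (2 * b - 1) := by
        have := ihr (show (0:ℝ) < 2 * b - 1 by linarith)
        rwa [phi_zero] at this
      by_cases ha : a ≤ 1/2
      · rw [if_pos ha]
        have h1 : phi l (2 * a) ≤ phi l 1 := ihl.monotone (by linarith)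
        rw [phi_one] at h1
        linarith
      · rw [if_neg ha]
        have := ihr (show 2 * a - 1 < 2 * b - 1 by linarith)
        linarith

theorem psi_phi (t : Tr) (x : ℝ) : psi t (phi t x) = x := by
  induction t generalizing x with
  | leaf => rfl
  | node l r ihl ihr =>
    by_cases hx : x ≤ 1/2
    · have h1 : phi (node l r) x = phi l (2 * x) := by simp only [phi]; rw [if_pos hx]
      have h2 : phi l (2 * x) ≤ nl l := by
        rw [← phi_one l]; exact (phi_mono l).monotone (by linarith)
      rw [h1]
      simp only [psi]
      rw [if_pos h2, ihl]; ring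
    · have h1 : phi (node l r) x = nl l + phi r (2 * x - 1) := by simp only [phi]; rw [if_neg hx]
      push Not at hx
      have h2 : 0 < phi r (2 * x - 1) := by
        have := phi_mono r (show (0:ℝ) < 2 * x - 1 by linarith)
        rwa [phi_zero] at this
      rw [h1]
      simp only [psi]
      rw [if_neg (by linarith), add_sub_cancel_left, ihr]; ring

theorem phi_psi (t : Tr) (y : ℝ) : phi t (psi t y) = y := by
  induction t generalizing y with
  | leaf => rfl
  | node l r ihl ihr =>
    by_cases hy : y ≤ nl l
    · have h1 : psi (node l r) y = psi l y / 2 := by simp only [psi]; rw [if_pos hy]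
      have h2 : psi l y ≤ 1 := by
        by_contra hcon
        push Not at hcon
        have := phi_mono l hcon
        rw [phi_one, ihl] at this
        linarith
      rw [h1]
      simp only [phi]
      rw [if_pos (by linarith), show 2 * (psi l y / 2) = psi l y by ring, ihl]
    · have h1 : psi (node l r) y = (1 + psi r (y - nl l)) / 2 := by simp only [psi]; rw [if_neg hy]
      push Not at hy
      have h2 : 0 < psi r (y - nl l) := by
        by_contra hcon
        push Not at hcon
        have := (phi_mono r).monotone hcon
        rw [phi_zero, ihr] at this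
        linarith
      rw [h1]
      simp only [phi]
      rw [if_neg (by linarith), show 2 * ((1 + psi r (y - nl l)) / 2) - 1 = psi r (y - nl l) by ring, ihr]
      ring

theorem psi_mono (t : Tr) : StrictMono (psi t) := by
  intro a b h
  by_contra hcon
  push Not at hcon
  have := (phi_mono t).monotone hcon
  rw [phi_psi, phi_psi] at this
  linarith

theorem psi_zero (t : Tr) : psi t 0 = 0 := by
  have := psi_phi t 0
  rwa [phi_zero] at this

theorem psi_nl (t : Tr) : psi t (nl t) = 1 := by
  rw [← phi_one t, psi_phi]

/-- expand the leaf number `i` -/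
def ins : Tr → ℕ → Tr
  | leaf, _ => node leaf leaf
  | node l r, i => if i < nl l then node (ins l i) r else node l (ins r (i - nl l))

theorem nl_ins (t : Tr) (i : ℕ) : nl (ins t i) = nl t + 1 := by
  induction t generalizing i with
  | leaf => rfl
  | node l r ihl ihr =>
    simp only [ins]
    split_ifs
    · simp only [nl, ihl]; ring
    · simp only [nl, ihr]; ring

/-- the expansion map on `[0, n]` -/
noncomputable def sig (i : ℕ) (y : ℝ) : ℝ := if y ≤ i then y else if y ≤ i + 1 then 2 * y - i else y + 1

theorem phi_ins (t : Tr) (i : ℕ) (hi : i < nl t) (x : ℝ) (h0 : 0 ≤ x) (h1 : x ≤ 1) :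
    phi (ins t i) x = sig i (phi t x) := by
  induction t generalizing i x with
  | leaf =>
    have : i = 0 := by simp only [nl] at hi; omega
    subst this
    show (if x ≤ 1/2 then 2 * x else ((1:ℕ):ℝ) + (2 * x - 1))
      = if x ≤ ((0:ℕ):ℝ) then x else if x ≤ ((0:ℕ):ℝ) + 1 then 2 * x - ((0:ℕ):ℝ) else x + 1
    rw [Nat.cast_zero, Nat.cast_one]
    split_ifs <;> linarith
  | node l r ihl ihr =>
    by_cases hil : i < nl l
    · have e1 : ins (node l r) i = node (ins l i) r := by simp only [ins]; rw [if_pos hil]
      rw [e1]
      by_cases hx : x ≤ 1/2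
      · have e2 : phi (node (ins l i) r) x = phi (ins l i) (2 * x) := by simp only [phi]; rw [if_pos hx]
        have e3 : phi (node l r) x = phi l (2 * x) := by simp only [phi]; rw [if_pos hx]
        rw [e2, e3]
        exact ihl i hil (2 * x) (by linarith) (by linarith)
      · have e2 : phi (node (ins l i) r) x = nl (ins l i) + phi r (2 * x - 1) := by simp only [phi]; rw [if_neg hx]
        have e3 : phi (node l r) x = nl l + phi r (2 * x - 1) := by simp only [phi]; rw [if_neg hx]
        rw [e2, e3, nl_ins]
        push Not at hx
        have h2 : 0 < phi r (2 * x - 1) := by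
          have := phi_mono r (show (0:ℝ) < 2 * x - 1 by linarith)
          rwa [phi_zero] at this
        have h3 : (i:ℝ) + 1 ≤ nl l := by exact_mod_cast hil
        unfold sig
        rw [if_neg (by linarith), if_neg (by linarith)]
        push_cast; ring
    · have e1 : ins (node l r) i = node l (ins r (i - nl l)) := by simp only [ins]; rw [if_neg hil]
      push Not at hil
      have hir : i - nl l < nl r := by simp only [nl] at hi; omega
      have hcast : ((i - nl l : ℕ) : ℝ) = (i:ℝ) - nl l := by rw [Nat.cast_sub hil]
      have h3 : (nl l : ℝ) ≤ i := by exact_mod_cast hil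
      rw [e1]
      by_cases hx : x ≤ 1/2
      · have e2 : phi (node l (ins r (i - nl l))) x = phi l (2 * x) := by simp only [phi]; rw [if_pos hx]
        have e3 : phi (node l r) x = phi l (2 * x) := by simp only [phi]; rw [if_pos hx]
        have h2 : phi l (2 * x) ≤ nl l := by
          rw [← phi_one l]; exact (phi_mono l).monotone (by linarith)
        rw [e2, e3]
        unfold sig
        rw [if_pos (by linarith)]
      · have e2 : phi (node l (ins r (i - nl l))) x = nl l + phi (ins r (i - nl l)) (2 * x - 1) := by
          simp only [phi]; rw [if_neg hx]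
        have e3 : phi (node l r) x = nl l + phi r (2 * x - 1) := by simp only [phi]; rw [if_neg hx]
        push Not at hx
        rw [e2, e3, ihr (i - nl l) hir (2 * x - 1) (by linarith) (by linarith)]
        unfold sig
        rw [hcast]
        generalize phi r (2 * x - 1) = P
        split_ifs <;> linarith

theorem sig_comm (i j : ℕ) (h : i + 2 ≤ j) (y : ℝ) : sig j (sig i y) = sig i (sig (j-1) y) := by
  have hj : ((j - 1 : ℕ) : ℝ) = (j:ℝ) - 1 := by rw [Nat.cast_sub (by omega)]; simp
  have hij : (i:ℝ) + 2 ≤ j := by exact_mod_cast h
  unfold sig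
  rw [hj]
  split_ifs <;> linarith

theorem exists_ins (t : Tr) (h : 2 ≤ nl t) : ∃ t' i, i < nl t' ∧ t = ins t' i := by
  induction t with
  | leaf => simp [nl] at h
  | node l r ihl ihr =>
    by_cases hl : 2 ≤ nl l
    · obtain ⟨l', i, hi, rfl⟩ := ihl hl
      refine ⟨node l' r, i, by simp only [nl]; omega, ?_⟩
      simp only [ins]
      rw [if_pos hi]
    · by_cases hr : 2 ≤ nl r
      · obtain ⟨r', i, hi, rfl⟩ := ihr hr
        refine ⟨node l r', nl l + i, by simp only [nl]; omega, ?_⟩
        simp only [ins]
        rw [if_neg (by omega), Nat.add_sub_cancel_left]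
      · have h1 : l = leaf := by
          cases l with
          | leaf => rfl
          | node a b => simp only [nl] at hl; have := nl_pos a; have := nl_pos b; omega
        have h2 : r = leaf := by
          cases r with
          | leaf => rfl
          | node a b => simp only [nl] at hr; have := nl_pos a; have := nl_pos b; omega
        exact ⟨leaf, 0, by simp [nl], by rw [h1, h2]; rfl⟩

/-- a tree with `n+1` leaves -/
def vine : ℕ → Tr
  | 0 => leaf
  | (n+1) => node (vine n) leaf

theorem nl_vine (n : ℕ) : nl (vine n) = n + 1 := by
  induction n with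
  | zero => rfl
  | succ n ih => simp only [vine, nl, ih]

/-- the complete tree -/
def comp : ℕ → Tr
  | 0 => leaf
  | (n+1) => node (comp n) (comp n)

theorem nl_comp (n : ℕ) : nl (comp n) = 2 ^ n := by
  induction n with
  | zero => rfl
  | succ n ih => simp only [comp, nl, ih]; ring

theorem phi_comp (n : ℕ) (x : ℝ) : phi (comp n) x = 2 ^ n * x := by
  induction n generalizing x with
  | zero => simp [comp, phi]
  | succ n ih =>
    simp only [comp, phi, ih, nl_comp]
    split_ifs
    · ring
    · push_cast; ring

theorem finite_le (n : ℕ) : {t : Tr | nl t ≤ n}.Finite := by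
  induction n using Nat.strong_induction_on with
  | _ n ih =>
    have hsub : {t : Tr | nl t ≤ n} ⊆ {leaf} ∪ (⋃ m ∈ Set.Iio n, Set.image2 node {t | nl t ≤ m} {t | nl t ≤ m}) := by
      intro t ht
      cases t with
      | leaf => left; rfl
      | node l r =>
        right
        simp only [Set.mem_iUnion]
        have h1 := nl_pos l
        have h2 := nl_pos r
        have h3 : nl l + nl r ≤ n := ht
        refine ⟨n - 1, by simp only [Set.mem_Iio]; omega, l, ?_, r, ?_, rfl⟩
        · show nl l ≤ n - 1
          omega
        · show nl r ≤ n - 1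
          omega
    refine Set.Finite.subset ?_ hsub
    refine (Set.finite_singleton _).union (Set.Finite.biUnion (Set.finite_Iio n) fun m hm => ?_)
    exact Set.Finite.image2 _ (ih m hm) (ih m hm)

end Tr

end Pool.Agent.Helper889
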