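import Mathlib
import Pool.Agent.Helper889.Tree

set_option autoImplicit false
set_option linter.unusedSectionVars false

namespace Pool.Agent.Helper889

open Tr

/-- the circle -/
abbrev X : Type := AddCircle (1:ℝ)

theorem X_ind {P : X → Prop} (h : ∀ r : ℝ, P (r : X)) (x : X) : P x :=
  QuotientAddGroup.induction_on x h

theorem coe_eq_iff (a b : ℝ) : (a : X) = (b : X) ↔ ∃ n : ℤ, a = b + n := by
  rw [← sub_eq_zero, ← AddCircle.coe_sub, AddCircle.coe_eq_zero_iff]
  constructor
  · rintro ⟨n, hn⟩
    exact ⟨n, by simp at hn; linarith⟩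
  · rintro ⟨n, hn⟩
    exact ⟨n, by simp; linarith⟩

theorem coe_add_int (a : ℝ) (n : ℤ) : ((a + n : ℝ) : X) = (a : X) :=
  (coe_eq_iff _ _).2 ⟨n, rfl⟩

theorem lift_periodic (F : ℝ → ℝ) (hF : ∀ x, F (x + 1) = F x + 1) :
    Function.Periodic (fun x => ((F x : ℝ) : X)) 1 := by
  intro x
  show ((F (x + 1) : ℝ) : X) = ((F x : ℝ) : X)
  rw [hF]
  exact_mod_cast coe_add_int (F x) 1

/-- the permutation of the circle with given lifts -/
noncomputable def permOf (F G : ℝ → ℝ) (hF : ∀ x, F (x + 1) = F x + 1) (hG : ∀ x, G (x + 1) = G x + 1)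
    (h1 : ∀ x, G (F x) = x) (h2 : ∀ x, F (G x) = x) : Equiv.Perm X where
  toFun := (lift_periodic F hF).lift
  invFun := (lift_periodic G hG).lift
  left_inv := by
    intro x
    induction x using X_ind with
    | h r =>
      rw [Function.Periodic.lift_coe, Function.Periodic.lift_coe, h1]
  right_inv := by
    intro x
    induction x using X_ind with
    | h r =>
      rw [Function.Periodic.lift_coe, Function.Periodic.lift_coe, h2]

theorem permOf_coe (F G : ℝ → ℝ) (hF : ∀ x, F (x + 1) = F x + 1) (hG : ∀ x, G (x + 1) = G x + 1)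
    (h1 : ∀ x, G (F x) = x) (h2 : ∀ x, F (G x) = x) (r : ℝ) :
    permOf F G hF hG h1 h2 (r : X) = ((F r : ℝ) : X) := by
  show (lift_periodic F hF).lift (r : X) = _
  rw [Function.Periodic.lift_coe]

/-- the lift of the tree pair map -/
noncomputable def EE (s t : Tr) (x : ℝ) : ℝ := ⌊x⌋ + psi t (phi s (Int.fract x))

theorem EE_add_one (s t : Tr) (x : ℝ) : EE s t (x + 1) = EE s t x + 1 := by
  unfold EE
  rw [Int.floor_add_one, Int.fract_add_one]
  push_cast; ring

theorem core_range (s t : Tr) (h : nl s = nl t) (u : ℝ) (h0 : 0 ≤ u) (h1 : u < 1) :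
    0 ≤ psi t (phi s u) ∧ psi t (phi s u) < 1 := by
  constructor
  · rw [← psi_zero t]
    apply (psi_mono t).monotone
    rw [← phi_zero s]
    exact (phi_mono s).monotone h0
  · rw [← psi_nl t]
    apply psi_mono t
    rw [← h, ← phi_one s]
    exact phi_mono s h1

theorem core_range' (s t : Tr) (h : nl s = nl t) (u : ℝ) (h0 : 0 ≤ u) (h1 : u ≤ 1) :
    0 ≤ psi t (phi s u) ∧ psi t (phi s u) ≤ 1 := by
  constructor
  · rw [← psi_zero t]
    apply (psi_mono t).monotone
    rw [← phi_zero s]
    exact (phi_mono s).monotone h0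
  · rw [← psi_nl t]
    apply (psi_mono t).monotone
    rw [← h, ← phi_one s]
    exact (phi_mono s).monotone h1

theorem EE_floor (s t : Tr) (h : nl s = nl t) (x : ℝ) : ⌊EE s t x⌋ = ⌊x⌋ := by
  obtain ⟨a, b⟩ := core_range s t h _ (Int.fract_nonneg x) (Int.fract_lt_one x)
  unfold EE
  rw [Int.floor_intCast_add, Int.floor_eq_zero_iff.2 ⟨a, b⟩, add_zero]

theorem EE_fract (s t : Tr) (h : nl s = nl t) (x : ℝ) :
    Int.fract (EE s t x) = psi t (phi s (Int.fract x)) := by
  unfold Int.fract
  rw [EE_floor s t h]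
  unfold EE Int.fract
  ring

theorem EE_comp (s t u : Tr) (h1 : nl s = nl t) (x : ℝ) :
    EE t u (EE s t x) = EE s u x := by
  have : EE t u (EE s t x) = ⌊EE s t x⌋ + psi u (phi t (Int.fract (EE s t x))) := rfl
  rw [this, EE_floor s t h1, EE_fract s t h1, phi_psi]
  rfl

theorem EE_self (s : Tr) (x : ℝ) : EE s s x = x := by
  unfold EE
  rw [psi_phi, Int.floor_add_fract]

/-- the tree pair permutation of the circle -/
noncomputable def e (s t : Tr) (h : nl s = nl t) : Equiv.Perm X :=
  permOf (EE s t) (EE t s) (EE_add_one s t) (EE_add_one t s)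
    (fun x => by rw [EE_comp s t s h, EE_self]) (fun x => by rw [EE_comp t s t h.symm, EE_self])

theorem e_coe (s t : Tr) (h : nl s = nl t) (r : ℝ) : e s t h (r : X) = ((EE s t r : ℝ) : X) :=
  permOf_coe _ _ _ _ _ _ r

theorem e_mul (s t u : Tr) (h1 : nl s = nl t) (h2 : nl t = nl u) :
    e t u h2 * e s t h1 = e s u (h1.trans h2) := by
  ext x
  induction x using X_ind with
  | h r =>
    rw [Equiv.Perm.mul_apply, e_coe, e_coe, e_coe, EE_comp s t u h1]

theorem e_self (s : Tr) : e s s rfl = 1 := by
  ext x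
  induction x using X_ind with
  | h r => rw [e_coe, EE_self]; rfl

theorem e_inv (s t : Tr) (h : nl s = nl t) : (e s t h)⁻¹ = e t s h.symm := by
  rw [inv_eq_iff_mul_eq_one]
  have := e_mul t s t h.symm h
  rw [this]
  exact e_self t

theorem e_congr (s t s' t' : Tr) (h : nl s = nl t) (h' : nl s' = nl t')
    (H : ∀ u : ℝ, 0 ≤ u → u < 1 → psi t (phi s u) = psi t' (phi s' u)) : e s t h = e s' t' h' := by
  ext x
  induction x using X_ind with
  | h r =>
    rw [e_coe, e_coe]
    unfold EE
    rw [H _ (Int.fract_nonneg r) (Int.fract_lt_one r)]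

theorem phi_range (s : Tr) (u : ℝ) (h0 : 0 ≤ u) (h1 : u < 1) : 0 ≤ phi s u ∧ phi s u < nl s := by
  constructor
  · rw [← phi_zero s]; exact (phi_mono s).monotone h0
  · rw [← phi_one s]; exact phi_mono s h1

theorem psi_ins (t : Tr) (i : ℕ) (hi : i < nl t) (y : ℝ) (h0 : 0 ≤ y) (h1 : y ≤ nl t) :
    psi (ins t i) (sig i y) = psi t y := by
  have a : 0 ≤ psi t y := by
    rw [← psi_zero t]; exact (psi_mono t).monotone h0
  have b : psi t y ≤ 1 := by
    rw [← psi_nl t]; exact (psi_mono t).monotone h1
  have := phi_ins t i hi (psi t y) a b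
  rw [phi_psi] at this
  rw [← this, psi_phi]

/-- expansion does not change the map -/
theorem e_ins (s t : Tr) (h : nl s = nl t) (i : ℕ) (hi : i < nl s) :
    e (ins s i) (ins t i) (by rw [nl_ins, nl_ins, h]) = e s t h := by
  apply e_congr
  intro u h0 h1
  obtain ⟨a, b⟩ := phi_range s u h0 h1
  rw [phi_ins s i hi u h0 h1.le, psi_ins t i (h ▸ hi) _ a (by rw [← h]; exact b.le)]

/-- if two trees have the same `phi` on `[0,1]` they define the same maps -/
theorem e_congr_right (s t t' : Tr) (h : nl s = nl t) (h' : nl s = nl t')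
    (H : ∀ u : ℝ, 0 ≤ u → u ≤ 1 → phi t u = phi t' u) : e s t h = e s t' h' := by
  apply e_congr
  intro u h0 h1
  obtain ⟨a, b⟩ := core_range s t h u h0 h1
  have := H _ a b.le
  rw [phi_psi] at this
  calc psi t (phi s u) = psi t' (phi t' (psi t (phi s u))) := (psi_phi _ _).symm
    _ = psi t' (phi s u) := by rw [← this]

/-- rotation by `c` -/
noncomputable def rot (c : ℝ) : Equiv.Perm X := Equiv.addRight (c : X)

theorem rot_coe (c r : ℝ) : rot c (r : X) = ((r + c : ℝ) : X) := by
  unfold rot
  rw [Equiv.coe_addRight, AddCircle.coe_add]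

/-- the generators coming from small trees -/
def smallGens : Set (Equiv.Perm X) := {g | ∃ s t h, nl s ≤ 4 ∧ g = e s t h}

theorem smallGens_finite : smallGens.Finite := by
  classical
  have h1 : smallGens ⊆ Set.image2 (fun s t => if h : nl s = nl t then e s t h else 1)
      {t | nl t ≤ 4} {t | nl t ≤ 4} := by
    rintro g ⟨s, t, h, hs, rfl⟩
    refine ⟨s, hs, t, ?_, ?_⟩
    · show nl t ≤ 4
      omega
    · simp only
      rw [dif_pos h]
  exact (Set.Finite.image2 _ (finite_le 4) (finite_le 4)).subset h1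

/-- the group generated by small tree pairs -/
def Hs : Subgroup (Equiv.Perm X) := Subgroup.closure smallGens

/-- Every tree pair map is a product of small ones. -/
theorem e_mem (n : ℕ) : ∀ s t (h : nl s = nl t), nl s = n → e s t h ∈ Hs := by
  induction n using Nat.strong_induction_on with
  | _ n ih =>
    intro s t h hn
    by_cases hn4 : n ≤ 4
    · exact Subgroup.subset_closure ⟨s, t, h, by omega, rfl⟩
    push Not at hn4
    -- common exposed caret
    have same : ∀ (s' t' : Tr) (i : ℕ) (hs' : nl s' = nl t') (hi : i < nl s') (hlt : nl s' < n),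
        e (ins s' i) (ins t' i) (by rw [nl_ins, nl_ins, hs']) ∈ Hs := by
      intro s' t' i hs' hi hlt
      rw [e_ins s' t' hs' i hi]
      exact ih (nl s') hlt s' t' hs' rfl
    -- far carets, ordered
    have far1 : ∀ (s' t' : Tr) (i j : ℕ) (hs' : nl s' = n - 1) (ht' : nl t' = n - 1)
        (hij : i + 2 ≤ j) (hj : j < n - 1),
        e (ins s' i) (ins t' j) (by rw [nl_ins, nl_ins, hs', ht']) ∈ Hs := by
      intro s' t' i j hs' ht' hij hj
      set w : Tr := vine (n - 3) with hw
      have hwn : nl w = n - 2 := by rw [hw, nl_vine]; omega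
      have n1 : nl (ins (ins w i) j) = n := by rw [nl_ins, nl_ins, hwn]; omega
      have n2 : nl (ins (ins w (j-1)) i) = n := by rw [nl_ins, nl_ins, hwn]; omega
      have hphi : ∀ u : ℝ, 0 ≤ u → u ≤ 1 → phi (ins (ins w i) j) u = phi (ins (ins w (j-1)) i) u := by
        intro u h0 h1
        rw [phi_ins (ins w i) j (by rw [nl_ins, hwn]; omega) u h0 h1,
          phi_ins w i (by rw [hwn]; omega) u h0 h1,
          phi_ins (ins w (j-1)) i (by rw [nl_ins, hwn]; omega) u h0 h1,
          phi_ins w (j-1) (by rw [hwn]; omega) u h0 h1, sig_comm i j hij]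
      have a1 : e (ins s' i) (ins (ins w i) j) (by rw [nl_ins, hs', n1]; omega) ∈ Hs := by
        rw [e_congr_right (ins s' i) (ins (ins w i) j) (ins (ins w (j-1)) i) _
          (by rw [nl_ins, hs', n2]; omega) hphi]
        exact same s' (ins w (j-1)) i (by rw [hs', nl_ins, hwn]; omega) (by omega) (by omega)
      have a2 : e (ins (ins w i) j) (ins t' j) (by rw [nl_ins t', ht', n1]; omega) ∈ Hs :=
        same (ins w i) t' j (by rw [nl_ins, hwn, ht']; omega) (by rw [nl_ins, hwn]; omega)
          (by rw [nl_ins, hwn]; omega)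
      have := Hs.mul_mem a2 a1
      rwa [e_mul] at this
    have far : ∀ (s' t' : Tr) (i j : ℕ) (hs' : nl s' = n - 1) (ht' : nl t' = n - 1)
        (hij : i + 2 ≤ j ∨ j + 2 ≤ i) (hi : i < n - 1) (hj : j < n - 1),
        e (ins s' i) (ins t' j) (by rw [nl_ins, nl_ins, hs', ht']) ∈ Hs := by
      intro s' t' i j hs' ht' hij hi hj
      rcases hij with hij | hij
      · exact far1 s' t' i j hs' ht' hij hj
      · have := Hs.inv_mem (far1 t' s' j i ht' hs' hij hi)
        rwa [e_inv] at this
    obtain ⟨s', i, hi, rfl⟩ := exists_ins s (by omega)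
    obtain ⟨t', j, hj, rfl⟩ := exists_ins t (by omega)
    have hs' : nl s' = n - 1 := by rw [nl_ins] at hn; omega
    have ht' : nl t' = n - 1 := by rw [nl_ins, nl_ins] at h; omega
    -- a pivot tree exposed at a given place
    set w : Tr := vine (n - 2) with hw
    have hwn : nl w = n - 1 := by rw [hw, nl_vine]; omega
    by_cases hij : i = j
    · subst hij
      exact same s' t' i (by omega) hi (by omega)
    by_cases hfar : i + 2 ≤ j ∨ j + 2 ≤ i
    · exact far s' t' i j hs' ht' hfar (by omega) (by omega)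
    -- adjacent positions
    by_cases hbig : 2 ≤ i ∧ 2 ≤ j
    · have b1 := far s' w i 0 hs' hwn (by omega) (by omega) (by omega)
      have b2 := far w t' 0 j hwn ht' (by omega) (by omega) (by omega)
      have := Hs.mul_mem b2 b1
      rwa [e_mul] at this
    by_cases h01 : i ≤ 1 ∧ j ≤ 1
    · have b1 := far s' w i 3 hs' hwn (by omega) (by omega) (by omega)
      have b2 := far w t' 3 j hwn ht' (by omega) (by omega) (by omega)
      have := Hs.mul_mem b2 b1
      rwa [e_mul] at this
    -- now {i,j} = {1,2}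
    by_cases hi1 : i = 1
    · have b1 := far s' w i 3 hs' hwn (by omega) (by omega) (by omega)
      have b2 := far w w 3 0 hwn hwn (by omega) (by omega) (by omega)
      have b3 := far w t' 0 j hwn ht' (by omega) (by omega) (by omega)
      have := Hs.mul_mem b3 (Hs.mul_mem b2 b1)
      rw [e_mul, e_mul] at this
      exact this
    · have b1 := far s' w i 0 hs' hwn (by omega) (by omega) (by omega)
      have b2 := far w w 0 3 hwn hwn (by omega) (by omega) (by omega)
      have b3 := far w t' 3 j hwn ht' (by omega) (by omega) (by omega)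
      have := Hs.mul_mem b3 (Hs.mul_mem b2 b1)
      rw [e_mul, e_mul] at this
      exact this

end Pool.Agent.Helper889
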