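import Mathlib
import Pool.Agent.Helper889.Perm

set_option autoImplicit false
set_option linter.unusedSectionVars false

namespace Pool.Agent.Helper889

open Tr

/-- the generating set of Thompson's group T used in the problem -/
def Tset : Set (Equiv.Perm X) := {f | ∃ F : ℝ → ℝ, Continuous F ∧ StrictMono F ∧
  (∀ x : ℝ, F (x + 1) = F x + 1) ∧ (∀ x : ℝ, f (↑x : X) = (↑(F x) : X)) ∧
  ∃ N : ℕ, ∀ k : ℤ, ∃ m : ℤ, ∃ p : ℤ, ∃ q : ℕ,
    ∀ x ∈ Set.Icc ((k:ℝ) / 2 ^ N) (((k:ℝ) + 1) / 2 ^ N), F x = (2:ℝ) ^ m * x + (p:ℝ) / 2 ^ q}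

/-- uniform version of dyadic piecewise affine -/
def Grid (F : ℝ → ℝ) (N M : ℕ) : Prop := ∀ k : ℤ, ∃ m c : ℤ, |m| ≤ M ∧
  ∀ x ∈ Set.Icc ((k:ℝ) / 2 ^ N) (((k:ℝ) + 1) / 2 ^ N), F x = (2:ℝ) ^ m * x + (c:ℝ) / 2 ^ M

theorem add_int_of (F : ℝ → ℝ) (hF : ∀ x, F (x + 1) = F x + 1) (n : ℤ) (x : ℝ) :
    F (x + n) = F x + n := by
  induction n using Int.induction_on generalizing x with
  | zero => simp
  | succ i ih =>
    have h1 : x + (((i:ℤ) + 1 : ℤ) : ℝ) = (x + 1) + ((i:ℤ):ℝ) := by push_cast; ring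
    rw [h1, ih (x+1), hF]; push_cast; ring
  | pred i ih =>
    have h1 := ih (x - 1)
    have h2 := hF (x - 1)
    rw [sub_add_cancel] at h2
    have h3 : x + ((-(i:ℤ) - 1 : ℤ) : ℝ) = x - 1 + ((-(i:ℤ) : ℤ) : ℝ) := by push_cast; ring
    rw [h3, h1, h2]; push_cast; ring

theorem zp (m : ℤ) (N r : ℕ) (h : (r:ℤ) = N - m) : (2:ℝ) ^ m = 2 ^ N / 2 ^ r := by
  rw [show m = (N:ℤ) - r by omega, zpow_sub₀ two_ne_zero, zpow_natCast, zpow_natCast]

theorem Grid.stepN {F : ℝ → ℝ} {N M : ℕ} (h : Grid F N M) : Grid F (N+1) M := by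
  intro k
  obtain ⟨m, c, hm, hx⟩ := h (k / 2)
  refine ⟨m, c, hm, fun x hxk => hx x ?_⟩
  have h1 : 2 * (k / 2) ≤ k := by omega
  have h2 : k + 1 ≤ 2 * (k / 2) + 2 := by omega
  have h1' : 2 * ((k / 2 : ℤ) : ℝ) ≤ k := by exact_mod_cast h1
  have h2' : (k:ℝ) + 1 ≤ 2 * ((k / 2 : ℤ) : ℝ) + 2 := by exact_mod_cast h2
  obtain ⟨a, b⟩ := hxk
  rw [pow_succ, div_le_iff₀ (by positivity)] at a
  rw [pow_succ, le_div_iff₀ (by positivity)] at b
  constructor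
  · rw [div_le_iff₀ (by positivity)]; linarith
  · rw [le_div_iff₀ (by positivity)]; linarith

theorem Grid.addN {F : ℝ → ℝ} {N M : ℕ} (h : Grid F N M) (j : ℕ) : Grid F (N+j) M := by
  induction j with
  | zero => exact h
  | succ j ih => exact ih.stepN

theorem to_grid (F : ℝ → ℝ) (hF : ∀ x, F (x + 1) = F x + 1) (N : ℕ)
    (h : ∀ k : ℤ, ∃ m : ℤ, ∃ p : ℤ, ∃ q : ℕ,
    ∀ x ∈ Set.Icc ((k:ℝ) / 2 ^ N) (((k:ℝ) + 1) / 2 ^ N), F x = (2:ℝ) ^ m * x + (p:ℝ) / 2 ^ q) :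
    ∃ M, Grid F N M := by
  choose m p q hx using h
  refine ⟨∑ i ∈ Finset.range (2^N), ((m i).natAbs + q i), fun k => ?_⟩
  set M : ℕ := ∑ i ∈ Finset.range (2^N), ((m i).natAbs + q i) with hM
  set a : ℤ := k / 2 ^ N with ha
  have hk0 : 0 ≤ k % 2 ^ N := Int.emod_nonneg _ (by positivity)
  have hk1 : k % 2 ^ N < 2 ^ N := Int.emod_lt_of_pos _ (by positivity)
  obtain ⟨k', hk'⟩ := Int.eq_ofNat_of_zero_le hk0
  have hk'2 : k' < 2 ^ N := by
    have : (k' : ℤ) < 2 ^ N := by rw [← hk']; exact hk1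
    exact_mod_cast this
  have hkk : k = 2 ^ N * a + k' := by
    rw [← hk', ha]; exact (Int.mul_ediv_add_emod k (2^N)).symm
  have hle : (m k').natAbs + q k' ≤ M := by
    rw [hM]
    exact Finset.single_le_sum (f := fun i : ℕ => (m i).natAbs + q i) (fun _ _ => Nat.zero_le _)
      (Finset.mem_range.2 hk'2)
  have hmM : |m k'| ≤ M := by
    rw [Int.abs_eq_natAbs]; exact_mod_cast (by omega : (m k').natAbs ≤ M)
  obtain ⟨r, hr⟩ : ∃ r : ℕ, (r : ℤ) = M + m k' := by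
    have := abs_le.1 hmM
    exact ⟨(M + m k').toNat, by omega⟩
  have hqM : q k' ≤ M := by omega
  refine ⟨m k', a * 2 ^ M - a * 2 ^ r + p k' * 2 ^ (M - q k'), hmM, fun x hxk => ?_⟩
  have hx1 : x - a ∈ Set.Icc (((k':ℤ):ℝ) / 2 ^ N) ((((k':ℤ):ℝ) + 1) / 2 ^ N) := by
    obtain ⟨u, v⟩ := hxk
    rw [hkk] at u v
    push_cast at u v ⊢
    rw [div_le_iff₀ (by positivity)] at u
    rw [le_div_iff₀ (by positivity)] at v
    constructor
    · rw [div_le_iff₀ (by positivity)]; linarith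
    · rw [le_div_iff₀ (by positivity)]; linarith
  have h1 := hx k' (x - a) hx1
  have h2 := add_int_of F hF a (x - a)
  rw [sub_add_cancel, h1] at h2
  rw [h2]
  have e1 : (2:ℝ) ^ m k' = 2 ^ r / 2 ^ M := zp (m k') r M (by omega)
  have e2 : (2:ℝ) ^ M = 2 ^ (M - q k') * 2 ^ q k' := by rw [← pow_add]; congr 1; omega
  rw [e1]
  push_cast
  have : (p k' : ℝ) / 2 ^ q k' = p k' * 2 ^ (M - q k') / 2 ^ M := by
    rw [e2]; field_simp
  rw [this]
  field_simp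
  ring

theorem Grid.image {F : ℝ → ℝ} {N M : ℕ} (h : Grid F N M) (hN : 2 * M ≤ N) (k : ℤ) :
    ∃ (m c j : ℤ) (r : ℕ), |m| ≤ M ∧ (r:ℤ) = N - m ∧
    (∀ x ∈ Set.Icc ((k:ℝ) / 2 ^ N) (((k:ℝ) + 1) / 2 ^ N), F x = (2:ℝ) ^ m * x + (c:ℝ) / 2 ^ M) ∧
    (∀ x ∈ Set.Icc ((k:ℝ) / 2 ^ N) (((k:ℝ) + 1) / 2 ^ N), F x = j / 2 ^ r + (2 ^ N * x - k) / 2 ^ r) := by
  obtain ⟨m, c, hm, hx⟩ := h k
  have hm' := abs_le.1 hm
  obtain ⟨r, hr⟩ : ∃ r : ℕ, (r : ℤ) = N - m := ⟨(N - m).toNat, by omega⟩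
  refine ⟨m, c, k + c * 2 ^ (r - M), r, hm, hr, hx, fun x hxk => ?_⟩
  rw [hx x hxk, zp m N r hr]
  push_cast
  have e2 : (2:ℝ) ^ r = 2 ^ (r - M) * 2 ^ M := by rw [← pow_add]; congr 1; omega
  have : (c : ℝ) / 2 ^ M = c * 2 ^ (r - M) / 2 ^ r := by
    rw [e2]; field_simp
  rw [this]
  field_simp
  ring

theorem Grid.comp {F₁ F₂ : ℝ → ℝ} {N₁ M₁ N₂ M₂ : ℕ} (h₁ : Grid F₁ N₁ M₁) (h₂ : Grid F₂ N₂ M₂) :
    Grid (fun x => F₁ (F₂ x)) (N₂ + (N₁ + 2 * M₂)) (M₁ + M₂) := by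
  intro k
  obtain ⟨m, c, j, r, hm, hr, hx, hx2⟩ := (h₂.addN (N₁ + 2 * M₂)).image (by omega) k
  set N := N₂ + (N₁ + 2 * M₂) with hN
  have hm' := abs_le.1 hm
  have hrN : N₁ ≤ r := by omega
  obtain ⟨m₁, c₁, hm₁, hx₁⟩ := h₁ (j / 2 ^ (r - N₁))
  have hm₁' := abs_le.1 hm₁
  obtain ⟨r₁, hr₁⟩ : ∃ r₁ : ℕ, (r₁ : ℤ) = M₁ + m₁ := ⟨(M₁ + m₁).toNat, by omega⟩
  refine ⟨m₁ + m, 2 ^ r₁ * c + c₁ * 2 ^ M₂, ?_, fun x hxk => ?_⟩
  · rw [abs_le]; push_cast; omega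
  · have hin : F₂ x ∈ Set.Icc (((j / 2 ^ (r - N₁) : ℤ):ℝ) / 2 ^ N₁) ((((j / 2 ^ (r - N₁) : ℤ):ℝ) + 1) / 2 ^ N₁) := by
      rw [hx2 x hxk]
      obtain ⟨u, v⟩ := hxk
      rw [div_le_iff₀ (by positivity)] at u
      rw [le_div_iff₀ (by positivity)] at v
      have hp : (0:ℤ) < 2 ^ (r - N₁) := by positivity
      have q1 : 2 ^ (r - N₁) * (j / 2 ^ (r - N₁)) ≤ j := Int.mul_ediv_self_le hp.ne'
      have q2 : j + 1 ≤ 2 ^ (r - N₁) * (j / 2 ^ (r - N₁)) + 2 ^ (r - N₁) := by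
        have := Int.lt_mul_ediv_self_add (x := j) hp
        omega
      have q1' : (2:ℝ) ^ (r - N₁) * ((j / 2 ^ (r - N₁) : ℤ):ℝ) ≤ j := by exact_mod_cast q1
      have q2' : (j:ℝ) + 1 ≤ 2 ^ (r - N₁) * ((j / 2 ^ (r - N₁) : ℤ):ℝ) + 2 ^ (r - N₁) := by exact_mod_cast q2
      have e2 : (2:ℝ) ^ r = 2 ^ (r - N₁) * 2 ^ N₁ := by rw [← pow_add]; congr 1; omega
      rw [← add_div, e2]
      constructor
      · rw [div_le_div_iff₀ (by positivity) (by positivity)]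
        nlinarith [show (0:ℝ) < 2 ^ N₁ by positivity]
      · rw [div_le_div_iff₀ (by positivity) (by positivity)]
        nlinarith [show (0:ℝ) < 2 ^ N₁ by positivity]
    show F₁ (F₂ x) = _
    rw [hx₁ _ hin, hx x hxk, zpow_add₀ two_ne_zero, zp m₁ r₁ M₁ (by omega)]
    push_cast
    rw [pow_add]
    field_simp
    ring

theorem Tset_mul {f g : Equiv.Perm X} (hf : f ∈ Tset) (hg : g ∈ Tset) : f * g ∈ Tset := by
  obtain ⟨F, hF1, hF2, hF3, hF4, N, hN⟩ := hf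
  obtain ⟨G, hG1, hG2, hG3, hG4, N', hN'⟩ := hg
  obtain ⟨M, hM⟩ := to_grid F hF3 N hN
  obtain ⟨M', hM'⟩ := to_grid G hG3 N' hN'
  refine ⟨fun x => F (G x), hF1.comp hG1, hF2.comp hG2, fun x => ?_, fun x => ?_, N' + (N + 2 * M'), ?_⟩
  · show F (G (x + 1)) = F (G x) + 1
    rw [hG3, hF3]
  · rw [Equiv.Perm.mul_apply, hG4, hF4]
  · intro k
    obtain ⟨m, c, _, h⟩ := hM.comp hM' k
    exact ⟨m, c, _, h⟩

/-- depth -/
def dep : Tr → ℕ
  | .leaf => 0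
  | .node l r => max (dep l) (dep r) + 1

theorem phi_node_left (l r : Tr) (x : ℝ) (hx : x ≤ 1/2) : phi (.node l r) x = phi l (2 * x) := by
  simp only [phi]; rw [if_pos hx]

theorem phi_node_right (l r : Tr) (x : ℝ) (hx : 1/2 ≤ x) : phi (.node l r) x = nl l + phi r (2 * x - 1) := by
  simp only [phi]
  split_ifs with h
  · have : x = 1/2 := le_antisymm h hx
    rw [this]
    norm_num [phi_one, phi_zero]
  · rfl

theorem psi_node_left (l r : Tr) (y : ℝ) (hy : y ≤ nl l) : psi (.node l r) y = psi l y / 2 := by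
  simp only [psi]; rw [if_pos hy]

theorem psi_node_right (l r : Tr) (y : ℝ) (hy : nl l ≤ y) : psi (.node l r) y = (1 + psi r (y - nl l)) / 2 := by
  simp only [psi]
  split_ifs with h
  · have : y = nl l := le_antisymm h hy
    rw [this, psi_nl, sub_self, psi_zero]; norm_num
  · rfl

theorem phi_aff (s : Tr) : ∀ (N : ℕ), dep s ≤ N → ∀ (k : ℕ), k < 2 ^ N →
    ∃ (d : ℕ) (c : ℤ) (i : ℕ), i < nl s ∧ ∀ x : ℝ, (k:ℝ) ≤ 2 ^ N * x → 2 ^ N * x ≤ k + 1 →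
      phi s x = 2 ^ d * x + c ∧ (i:ℝ) ≤ phi s x ∧ phi s x ≤ i + 1 := by
  induction s with
  | leaf =>
    intro N _ k hk
    refine ⟨0, 0, 0, by simp [nl], fun x h1 h2 => ?_⟩
    simp only [phi]
    have hk' : (k:ℝ) + 1 ≤ 2 ^ N := by exact_mod_cast hk
    have hk0 : (0:ℝ) ≤ k := by positivity
    have hp : (0:ℝ) < 2 ^ N := by positivity
    refine ⟨by simp, ?_, ?_⟩
    · push_cast
      by_contra hcon
      push Not at hcon
      nlinarith
    · push_cast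
      by_contra hcon
      push Not at hcon
      nlinarith
  | node l r ihl ihr =>
    intro N hN k hk
    simp only [dep] at hN
    obtain ⟨N', rfl⟩ : ∃ N', N = N' + 1 := ⟨N - 1, by omega⟩
    have hp : (0:ℝ) < 2 ^ N' := by positivity
    by_cases hkl : k < 2 ^ N'
    · obtain ⟨d, c, i, hi, H⟩ := ihl N' (by omega) k hkl
      refine ⟨d + 1, c, i, by simp only [nl]; omega, fun x h1 h2 => ?_⟩
      rw [pow_succ] at h1 h2
      have hk' : (k:ℝ) + 1 ≤ 2 ^ N' := by exact_mod_cast hkl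
      have hx : x ≤ 1/2 := by
        by_contra hcon
        push Not at hcon
        nlinarith
      rw [phi_node_left l r x hx]
      obtain ⟨a1, a2, a3⟩ := H (2 * x) (by linarith) (by linarith)
      refine ⟨?_, a2, a3⟩
      rw [a1, pow_succ]; ring
    · push Not at hkl
      obtain ⟨d, c, i, hi, H⟩ := ihr N' (by omega) (k - 2 ^ N') (by rw [pow_succ] at hk; omega)
      refine ⟨d + 1, c + nl l - 2 ^ d, nl l + i, by simp only [nl]; omega, fun x h1 h2 => ?_⟩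
      rw [pow_succ] at h1 h2
      have hcast : ((k - 2 ^ N' : ℕ) : ℝ) = (k:ℝ) - 2 ^ N' := by rw [Nat.cast_sub hkl]; push_cast; ring
      have hk' : (2:ℝ) ^ N' ≤ k := by exact_mod_cast hkl
      have hx : 1/2 ≤ x := by
        by_contra hcon
        push Not at hcon
        nlinarith
      rw [phi_node_right l r x hx]
      obtain ⟨a1, a2, a3⟩ := H (2 * x - 1) (by rw [hcast]; linarith) (by rw [hcast]; linarith)
      refine ⟨?_, ?_, ?_⟩
      · rw [a1, pow_succ]; push_cast; ring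
      · push_cast; linarith
      · push_cast; linarith

theorem psi_aff (t : Tr) : ∀ i < nl t, ∃ (d : ℕ) (p : ℤ), ∀ y : ℝ, (i:ℝ) ≤ y → y ≤ i + 1 →
    psi t y = (y + p) / 2 ^ d := by
  induction t with
  | leaf =>
    intro i _
    exact ⟨0, 0, fun y _ _ => by simp [psi]⟩
  | node l r ihl ihr =>
    intro i hi
    by_cases hil : i < nl l
    · obtain ⟨d, p, H⟩ := ihl i hil
      refine ⟨d + 1, p, fun y h1 h2 => ?_⟩
      have : (i:ℝ) + 1 ≤ nl l := by exact_mod_cast hil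
      rw [psi_node_left l r y (by linarith), H y h1 h2, pow_succ]
      field_simp
    · push Not at hil
      obtain ⟨d, p, H⟩ := ihr (i - nl l) (by simp only [nl] at hi; omega)
      refine ⟨d + 1, 2 ^ d - nl l + p, fun y h1 h2 => ?_⟩
      have h3 : (nl l : ℝ) ≤ i := by exact_mod_cast hil
      have hcast : ((i - nl l : ℕ) : ℝ) = (i:ℝ) - nl l := by rw [Nat.cast_sub hil]
      rw [psi_node_right l r y (by linarith), H (y - nl l) (by rw [hcast]; linarith) (by rw [hcast]; linarith), pow_succ]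
      push_cast
      field_simp
      ring

theorem EE_eq (s t : Tr) (h : nl s = nl t) (a : ℤ) (x : ℝ) (h0 : (a:ℝ) ≤ x) (h1 : x ≤ a + 1) :
    EE s t x = a + psi t (phi s (x - a)) := by
  rcases lt_or_eq_of_le h1 with h2 | h2
  · have : ⌊x⌋ = a := Int.floor_eq_iff.2 ⟨h0, h2⟩
    unfold EE Int.fract
    rw [this]
  · have : ⌊x⌋ = a + 1 := Int.floor_eq_iff.2 ⟨by rw [h2]; push_cast; linarith, by rw [h2]; push_cast; linarith⟩
    unfold EE Int.fract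
    rw [this, h2]
    push_cast
    rw [sub_self, phi_zero, psi_zero, add_sub_cancel_left, phi_one, h, psi_nl]
    ring

theorem EE_mono (s t : Tr) (h : nl s = nl t) : StrictMono (EE s t) := by
  intro x y hxy
  rcases lt_or_eq_of_le (Int.floor_mono hxy.le) with h1 | h1
  · have h2 := Int.lt_floor_add_one (EE s t x)
    have h3 := Int.floor_le (EE s t y)
    rw [EE_floor s t h] at h2 h3
    have h4 : (⌊x⌋ : ℝ) + 1 ≤ ⌊y⌋ := by exact_mod_cast h1
    linarith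
  · unfold EE
    rw [h1]
    have h2 : Int.fract x < Int.fract y := by
      unfold Int.fract
      rw [h1]; linarith
    have := psi_mono t (phi_mono s h2)
    linarith

theorem EE_cont (s t : Tr) (h : nl s = nl t) : Continuous (EE s t) :=
  (EE_mono s t h).monotone.continuous_of_surjective
    (fun y => ⟨EE t s y, by rw [EE_comp t s t h.symm, EE_self]⟩)

theorem e_Tset (s t : Tr) (h : nl s = nl t) : e s t h ∈ Tset := by
  refine ⟨EE s t, EE_cont s t h, EE_mono s t h, EE_add_one s t, e_coe s t h, dep s, fun k => ?_⟩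
  set N := dep s with hN
  set a : ℤ := k / 2 ^ N with ha
  have hk0 : 0 ≤ k % 2 ^ N := Int.emod_nonneg _ (by positivity)
  have hk1 : k % 2 ^ N < 2 ^ N := Int.emod_lt_of_pos _ (by positivity)
  obtain ⟨k', hk'⟩ := Int.eq_ofNat_of_zero_le hk0
  have hk'2 : k' < 2 ^ N := by
    have : (k' : ℤ) < 2 ^ N := by rw [← hk']; exact hk1
    exact_mod_cast this
  have hkk : k = 2 ^ N * a + k' := by
    rw [← hk', ha]; exact (Int.mul_ediv_add_emod k (2^N)).symm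
  obtain ⟨d, c, i, hi, H⟩ := phi_aff s N le_rfl k' hk'2
  obtain ⟨d', p, H'⟩ := psi_aff t i (h ▸ hi)
  refine ⟨(d:ℤ) - d', a * 2 ^ d' - 2 ^ d * a + c + p, d', fun x hx => ?_⟩
  obtain ⟨u, v⟩ := hx
  rw [hkk] at u v
  push_cast at u v
  rw [div_le_iff₀ (by positivity)] at u
  rw [le_div_iff₀ (by positivity)] at v
  have hp : (0:ℝ) < 2 ^ N := by positivity
  have hk'3 : (k':ℝ) + 1 ≤ 2 ^ N := by exact_mod_cast hk'2
  have hk'0 : (0:ℝ) ≤ k' := by positivity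
  have b1 : (a:ℝ) ≤ x := by
    by_contra hcon
    push Not at hcon
    nlinarith
  have b2 : x ≤ a + 1 := by
    by_contra hcon
    push Not at hcon
    nlinarith
  obtain ⟨c1, c2, c3⟩ := H (x - a) (by nlinarith) (by nlinarith)
  rw [EE_eq s t h a x b1 b2, H' _ c2 c3, c1, zpow_sub₀ two_ne_zero, zpow_natCast, zpow_natCast]
  push_cast
  field_simp
  ring

theorem rot_Tset (p : ℤ) (q : ℕ) : rot ((p:ℝ) / 2 ^ q) ∈ Tset := by
  refine ⟨fun x => x + (p:ℝ) / 2 ^ q, by fun_prop, fun a b h => by simpa using h, fun x => by ring,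
    fun x => rot_coe _ _, 0, fun k => ⟨0, p, q, fun x _ => by simp⟩⟩

end Pool.Agent.Helper889
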