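import Mathlib
import Pool.Agent.Helper889.PL

set_option autoImplicit false
set_option linter.unusedSectionVars false

namespace Pool.Agent.Helper889

open Tr

/-- a partition of `[0,1]` into standard dyadic intervals comes from a tree -/
theorem part_tree (n : ℕ) : ∀ b : ℕ → ℝ, 1 ≤ n → b 0 = 0 → b n = 1 →
    (∀ i < n, ∃ (r : ℕ) (j : ℤ), b i = j / 2 ^ r ∧ b (i+1) = (j + 1) / 2 ^ r) →
    ∃ t : Tr, nl t = n ∧ ∀ i < n, ∀ y, b i ≤ y → y ≤ b (i+1) →
      phi t y = i + (y - b i) / (b (i+1) - b i) := by
  induction n using Nat.strong_induction_on with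
  | _ n ih =>
    intro b hn h0 h1 hd
    have hlt : ∀ i < n, b i < b (i+1) := by
      intro i hi
      obtain ⟨r, j, e1, e2⟩ := hd i hi
      rw [e1, e2]
      have : (0:ℝ) < 2 ^ r := by positivity
      gcongr
      linarith
    have hmono : ∀ i j, i ≤ j → j ≤ n → b i ≤ b j := by
      intro i j hij
      induction j, hij using Nat.le_induction with
      | base => intro _; exact le_rfl
      | succ j hij ihj => intro hj; exact (ihj (by omega)).trans (hlt j (by omega)).le
    by_cases hn1 : n = 1
    · subst hn1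
      refine ⟨leaf, rfl, fun i hi y _ _ => ?_⟩
      have : i = 0 := by omega
      subst this
      simp only [phi]
      rw [zero_add, h1, h0]; simp
    -- find the index of the midpoint
    obtain ⟨i0, hi0, hb, hb'⟩ : ∃ i0 < n, b i0 ≤ 1/2 ∧ 1/2 < b (i0+1) := by
      by_contra hcon
      push Not at hcon
      have : ∀ i ≤ n, b i ≤ 1/2 := by
        intro i
        induction i with
        | zero => intro _; rw [h0]; norm_num
        | succ i ihi => intro hi; exact hcon i (by omega) (ihi (by omega))
      have := this n le_rfl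
      rw [h1] at this; norm_num at this
    have hmid : b i0 = 1/2 := by
      obtain ⟨r, j, e1, e2⟩ := hd i0 hi0
      rw [e1] at hb ⊢
      rw [e2] at hb'
      have hp : (0:ℝ) < 2 ^ r := by positivity
      rw [div_le_div_iff₀ hp two_pos] at hb
      rw [div_lt_div_iff₀ two_pos hp] at hb'
      cases r with
      | zero =>
        exfalso
        simp only [pow_zero, mul_one, one_mul] at hb hb'
        have g1 : j * 2 ≤ 1 := by exact_mod_cast hb
        have g2 : (1:ℤ) < (j + 1) * 2 := by exact_mod_cast hb'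
        have hj : j = 0 := by omega
        rw [hj] at e1 e2
        simp at e1 e2
        -- b i0 = 0, b (i0+1) = 1, so n = 1
        have k1 : i0 = 0 := by
          by_contra hne
          have a1 := hlt 0 (by omega)
          have a2 := hmono 1 i0 (by omega) (by omega)
          rw [h0] at a1
          simp only [zero_add] at a1
          linarith
        have k2 : n = i0 + 1 := by
          by_contra hne
          have a1 := hlt (i0+1) (by omega)
          have a2 := hmono (i0+1+1) n (by omega) le_rfl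
          rw [h1] at a2
          linarith
        omega
      | succ r =>
        rw [pow_succ] at hb hb' ⊢
        have g1 : j * 2 ≤ 2 ^ r * 2 := by
          have : (j:ℝ) * 2 ≤ 2 ^ r * 2 := by linarith
          exact_mod_cast this
        have g2 : 2 ^ r * 2 < (j + 1) * 2 := by
          have : (2:ℝ) ^ r * 2 < (j + 1) * 2 := by linarith
          exact_mod_cast this
        have hj : j = 2 ^ r := by omega
        rw [hj]
        push_cast
        field_simp
    have hi0pos : 0 < i0 := by
      rcases Nat.eq_zero_or_pos i0 with h | h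
      · rw [h, h0] at hmid; norm_num at hmid
      · exact h
    -- left tree
    obtain ⟨l, hl, Hl⟩ := ih i0 (by omega) (fun i => 2 * b i) hi0pos (by simp [h0]) (by rw [hmid]; norm_num) (by
      intro i hi
      obtain ⟨r, j, e1, e2⟩ := hd i (by omega)
      have hbi : b (i+1) ≤ 1/2 := by rw [← hmid]; exact hmono _ _ (by omega) (by omega)
      have hbi0 : 0 ≤ b i := by rw [← h0]; exact hmono _ _ (by omega) (by omega)
      cases r with
      | zero =>
        exfalso
        simp only [pow_zero, div_one] at e1 e2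
        rw [e1] at hbi0
        rw [e2] at hbi
        linarith
      | succ r =>
        refine ⟨r, j, ?_, ?_⟩
        · rw [e1, pow_succ]; field_simp
        · rw [e2, pow_succ]; field_simp)
    obtain ⟨t, ht, Ht⟩ := ih (n - i0) (by omega) (fun i => 2 * b (i0 + i) - 1) (by omega)
      (by simp only [add_zero]; rw [hmid]; norm_num)
      (by rw [show i0 + (n - i0) = n by omega, h1]; norm_num) (by
      intro i hi
      obtain ⟨r, j, e1, e2⟩ := hd (i0 + i) (by omega)
      have hbi : 1/2 ≤ b (i0+i) := by rw [← hmid]; exact hmono _ _ (by omega) (by omega)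
      have hbi1 : b (i0+i+1) ≤ 1 := by rw [← h1]; exact hmono _ _ (by omega) (by omega)
      cases r with
      | zero =>
        exfalso
        simp only [pow_zero, div_one] at e1 e2
        rw [e1] at hbi
        rw [e2] at hbi1
        have : (j:ℝ) ≤ 0 := by linarith
        linarith
      | succ r =>
        refine ⟨r, j - 2 ^ r, ?_, ?_⟩
        · rw [e1, pow_succ]; push_cast; field_simp
        · rw [show i0 + (i+1) = i0 + i + 1 by ring, e2, pow_succ]; push_cast; field_simp; ring)
    refine ⟨node l t, by simp only [nl, hl, ht]; omega, fun i hi y hy1 hy2 => ?_⟩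
    by_cases hii : i < i0
    · have hbi : b (i+1) ≤ 1/2 := by rw [← hmid]; exact hmono _ _ (by omega) (by omega)
      have := Hl i hii (2 * y) (by linarith) (by linarith)
      rw [phi_node_left l t y (by linarith), this]
      have hlt' := hlt i hi
      have h3 : 0 < b (i+1) - b i := by linarith
      have h4 : 2 * b (i+1) - 2 * b i = 2 * (b (i+1) - b i) := by ring
      rw [h4]
      have h5 : 2 * y - 2 * b i = 2 * (y - b i) := by ring
      rw [h5, mul_div_mul_left _ _ two_ne_zero]
    · push Not at hii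
      obtain ⟨i', rfl⟩ : ∃ i', i = i0 + i' := ⟨i - i0, by omega⟩
      have hbi : 1/2 ≤ b (i0+i') := by rw [← hmid]; exact hmono _ _ (by omega) (by omega)
      have := Ht i' (by omega) (2 * y - 1) (by linarith)
        (by rw [show i0 + (i'+1) = i0 + i' + 1 by ring]; linarith)
      rw [phi_node_right l t y (by linarith), this, hl]
      have hlt' := hlt (i0+i') hi
      have h3 : 0 < b (i0+i'+1) - b (i0+i') := by linarith
      rw [show i0 + (i'+1) = i0 + i' + 1 by ring]
      have h4 : 2 * b (i0+i'+1) - 1 - (2 * b (i0+i') - 1) = 2 * (b (i0+i'+1) - b (i0+i')) := by ring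
      have h5 : 2 * y - 1 - (2 * b (i0+i') - 1) = 2 * (y - b (i0+i')) := by ring
      rw [h4, h5, mul_div_mul_left _ _ two_ne_zero]
      push_cast
      ring

/-- an element of `Tset` that fixes `0` is a tree pair map -/
theorem fix_zero_mem (f : Equiv.Perm X) (hf : f ∈ Tset) (h0 : f 0 = 0) : f ∈ Hs := by
  obtain ⟨F, hF1, hF2, hF3, hF4, N₀, hN⟩ := hf
  obtain ⟨M, hM⟩ := to_grid F hF3 N₀ hN
  -- normalise the lift
  have hz : ((F 0 : ℝ) : X) = ((0:ℝ) : X) := by
    rw [← hF4 0]; simpa using h0
  obtain ⟨n, hn⟩ := (coe_eq_iff _ _).1 hz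
  rw [zero_add] at hn
  set F' : ℝ → ℝ := fun x => F x - n with hF'
  have g0 : F' 0 = 0 := by simp only [hF']; rw [hn]; ring
  have g1 : F' 1 = 1 := by
    simp only [hF']
    have := hF3 0
    rw [zero_add] at this
    rw [this, hn]; ring
  have glift : ∀ x : ℝ, f (x : X) = ((F' x : ℝ) : X) := by
    intro x
    rw [hF4, coe_eq_iff]
    exact ⟨n, by simp only [hF']; ring⟩
  have gmono : StrictMono F' := fun a b h => by simp only [hF']; linarith [hF2 h]
  have ggrid : Grid F' N₀ M := by
    intro k
    obtain ⟨m, c, hm, hx⟩ := hM k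
    refine ⟨m, c - n * 2 ^ M, hm, fun x hxk => ?_⟩
    simp only [hF']
    rw [hx x hxk]
    push_cast
    field_simp
    ring
  set N := N₀ + 2 * M with hNdef
  have ggrid' : Grid F' N M := ggrid.addN (2 * M)
  -- the image partition
  set b : ℕ → ℝ := fun i => F' (i / 2 ^ N) with hb
  have hp : (0:ℝ) < 2 ^ N := by positivity
  have hloc : ∀ i : ℕ, i < 2 ^ N → ∃ (r : ℕ) (j : ℤ), b i = j / 2 ^ r ∧ b (i+1) = (j + 1) / 2 ^ r ∧
      ∀ x : ℝ, (i:ℝ) / 2 ^ N ≤ x → x ≤ (i + 1) / 2 ^ N → F' x = j / 2 ^ r + (2 ^ N * x - i) / 2 ^ r := by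
    intro i hi
    obtain ⟨m, c, j, r, _, _, _, hx2⟩ := ggrid'.image (by omega) (i:ℤ)
    simp only [Int.cast_natCast] at hx2
    refine ⟨r, j, ?_, ?_, fun x h1 h2 => hx2 x ⟨h1, h2⟩⟩
    · simp only [hb]
      rw [hx2 _ ⟨le_rfl, by gcongr; linarith⟩]
      field_simp
      ring
    · simp only [hb]
      push_cast
      rw [hx2 _ ⟨by gcongr; linarith, le_rfl⟩]
      field_simp
      ring
  obtain ⟨t, ht, Ht⟩ := part_tree (2 ^ N) b Nat.one_le_two_pow (by simp only [hb]; simp [g0])
    (by simp only [hb]; push_cast; rw [div_self hp.ne', g1])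
    (fun i hi => by obtain ⟨r, j, e1, e2, _⟩ := hloc i hi; exact ⟨r, j, e1, e2⟩)
  have hnl : nl (comp N) = nl t := by rw [nl_comp, ht]
  have hfe : f = e (comp N) t hnl := by
    ext x
    induction x using X_ind with
    | h r =>
      rw [glift, e_coe]
      congr 1
      have hmain : ∀ u : ℝ, 0 ≤ u → u < 1 → F' u = psi t (phi (comp N) u) := by
        intro u hu0 hu1
        set i : ℕ := ⌊2 ^ N * u⌋₊ with hi
        have i1 : (i:ℝ) ≤ 2 ^ N * u := Nat.floor_le (by positivity)
        have i2 : 2 ^ N * u < i + 1 := Nat.lt_floor_add_one _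
        have i3 : i < 2 ^ N := by
          have : (i:ℝ) < 2 ^ N := by nlinarith
          exact_mod_cast this
        obtain ⟨r, j, e1, e2, e3⟩ := hloc i i3
        have j1 : (i:ℝ) / 2 ^ N ≤ u := by rw [div_le_iff₀ hp]; linarith
        have j2 : u ≤ (i + 1) / 2 ^ N := by rw [le_div_iff₀ hp]; linarith
        have k1 : b i ≤ F' u := by
          simp only [hb]; exact gmono.monotone j1
        have k2 : F' u ≤ b (i+1) := by
          simp only [hb]; push_cast; exact gmono.monotone j2
        have k3 := Ht i i3 (F' u) k1 k2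
        have k4 : phi t (F' u) = phi (comp N) u := by
          rw [k3, phi_comp, e1, e2, e3 u j1 j2]
          have : (0:ℝ) < 2 ^ r := by positivity
          field_simp
          ring
        rw [← k4, psi_phi]
      have hfl : F' r = ⌊r⌋ + F' (Int.fract r) := by
        have hF'3 : ∀ x, F' (x + 1) = F' x + 1 := by
          intro x; simp only [hF']; rw [hF3]; ring
        have := add_int_of F' hF'3 ⌊r⌋ (Int.fract r)
        rw [Int.fract_add_floor] at this
        rw [this]; ring
      rw [hfl, hmain _ (Int.fract_nonneg r) (Int.fract_lt_one r)]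
      rfl
  rw [hfe]
  exact e_mem _ _ _ hnl rfl

/-- all the generators -/
def gens : Set (Equiv.Perm X) := smallGens ∪ {rot (1/2)}

theorem gens_finite : gens.Finite := smallGens_finite.union (Set.finite_singleton _)

theorem rot_half_Tset : rot (1/2) ∈ Tset := by
  have := rot_Tset 1 1
  simpa using this

theorem gens_sub : gens ⊆ Tset := by
  rintro g (⟨s, t, h, _, rfl⟩ | hg)
  · exact e_Tset s t h
  · rw [Set.mem_singleton_iff] at hg
    rw [hg]
    exact rot_half_Tset

theorem Hs_le : Hs ≤ Subgroup.closure gens := Subgroup.closure_mono Set.subset_union_left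

theorem Tset_sub (f : Equiv.Perm X) (hf : f ∈ Tset) : f ∈ Subgroup.closure gens := by
  -- move `f 0` to `0`
  have hf' := hf
  obtain ⟨F, hF1, hF2, hF3, hF4, N₀, hN⟩ := hf
  obtain ⟨M, hM⟩ := to_grid F hF3 N₀ hN
  have hd : ∃ c : ℤ, F 0 = c / 2 ^ M := by
    obtain ⟨m, c, _, hx⟩ := hM 0
    refine ⟨c, ?_⟩
    rw [hx 0 ⟨by simp, by simp⟩]; simp
  obtain ⟨c, hc⟩ := hd
  set a : ℤ := c / 2 ^ M with ha
  have hk0 : 0 ≤ c % 2 ^ M := Int.emod_nonneg _ (by positivity)
  have hk1 : c % 2 ^ M < 2 ^ M := Int.emod_lt_of_pos _ (by positivity)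
  obtain ⟨k, hk⟩ := Int.eq_ofNat_of_zero_le hk0
  have hk2 : k < 2 ^ M := by
    have : (k : ℤ) < 2 ^ M := by rw [← hk]; exact hk1
    exact_mod_cast this
  have hcc : c = 2 ^ M * a + k := by
    rw [← hk, ha]; exact (Int.mul_ediv_add_emod c (2^M)).symm
  have hf0 : f 0 = (((k:ℝ) / 2 ^ M : ℝ) : X) := by
    have h1 : f 0 = ((F 0 : ℝ) : X) := by
      have := hF4 0
      simpa using this
    rw [h1, coe_eq_iff]
    refine ⟨a, ?_⟩
    rw [hc, hcc]; push_cast; field_simp; ring
  by_cases hkz : k = 0
  · rw [hkz] at hf0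
    exact Hs_le (fix_zero_mem f hf' (by simpa using hf0))
  · -- h moves k/2^M to 1/2
    have hk3 : 1 ≤ k := Nat.one_le_iff_ne_zero.2 hkz
    set t : Tr := node (vine (k - 1)) (vine (2 ^ M - k - 1)) with ht
    have hnl : nl (comp M) = nl t := by
      rw [nl_comp, ht]
      simp only [nl, nl_vine]
      omega
    set h := e (comp M) t hnl with hh
    have hval : h (((k:ℝ) / 2 ^ M : ℝ) : X) = ((1/2 : ℝ) : X) := by
      rw [hh, e_coe]
      congr 1
      have hp : (0:ℝ) < 2 ^ M := by positivity
      have e1 : ⌊(k:ℝ) / 2 ^ M⌋ = 0 := by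
        rw [Int.floor_eq_zero_iff]
        refine ⟨by positivity, ?_⟩
        rw [div_lt_one hp]; exact_mod_cast hk2
      unfold EE Int.fract
      rw [e1, phi_comp]
      simp only [Int.cast_zero, sub_zero, zero_add]
      have e2 : (2:ℝ) ^ M * (k / 2 ^ M) = k := by field_simp
      have hl : nl (vine (k-1)) = k := by rw [nl_vine]; omega
      rw [e2, ht, psi_node_left _ _ _ (by rw [hl])]
      rw [show ((k:ℝ)) = nl (vine (k-1)) by rw [hl], psi_nl]
    have hrot : rot (1/2) ((1/2 : ℝ) : X) = 0 := by
      rw [rot_coe]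
      have : ((1/2 + 1/2 : ℝ) : X) = ((0:ℝ) : X) := (coe_eq_iff _ _).2 ⟨1, by norm_num⟩
      rw [this]; simp
    have hg : rot (1/2) * (h * f) ∈ Tset := Tset_mul rot_half_Tset (Tset_mul (e_Tset _ _ _) hf')
    have hg0 : (rot (1/2) * (h * f)) 0 = 0 := by
      rw [Equiv.Perm.mul_apply, Equiv.Perm.mul_apply, hf0, hval, hrot]
    have hmem := Hs_le (fix_zero_mem _ hg hg0)
    have hrotm : rot (1/2) ∈ Subgroup.closure gens := Subgroup.subset_closure (Or.inr rfl)
    have hhm : h ∈ Subgroup.closure gens := Hs_le (e_mem _ _ _ hnl rfl)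
    have e3 : f = h⁻¹ * ((rot (1/2))⁻¹ * (rot (1/2) * (h * f))) := by group
    rw [e3]
    exact mul_mem (inv_mem hhm) (mul_mem (inv_mem hrotm) hmem)

/-- Thompson's group `T` is finitely generated. -/
theorem closure_eq : Subgroup.closure Tset = Subgroup.closure gens :=
  le_antisymm ((Subgroup.closure_le _).2 Tset_sub) (Subgroup.closure_mono gens_sub)

end Pool.Agent.Helper889
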