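import Mathlib
import Pool.Agent.Helper889.Gen

set_option autoImplicit false
set_option linter.unusedSectionVars false

namespace Pool.Agent.Helper889

open Tr

theorem inv_app (g : Equiv.Perm X) (x : X) : g⁻¹ (g x) = x := g.symm_apply_apply x
theorem app_inv (g : Equiv.Perm X) (x : X) : g (g⁻¹ x) = x := g.apply_symm_apply x

/-- Thompson's group `T` -/
def TT : Subgroup (Equiv.Perm X) := Subgroup.closure Tset

/-- `g` has right slope `2^m` at `x` -/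
def RS (g : Equiv.Perm X) (x : X) (m : ℤ) : Prop :=
  ∃ ε > 0, ∀ t : ℝ, 0 ≤ t → t < ε → g (x + ((t : ℝ) : X)) = g x + (((2:ℝ) ^ m * t : ℝ) : X)

/-- `g` has left slope `2^m` at `x` -/
def LS (g : Equiv.Perm X) (x : X) (m : ℤ) : Prop :=
  ∃ ε > 0, ∀ t : ℝ, 0 ≤ t → t < ε → g (x - ((t : ℝ) : X)) = g x - (((2:ℝ) ^ m * t : ℝ) : X)

theorem pow2_unique (m m' : ℤ) (h : ∃ ε > 0, ∀ t : ℝ, 0 ≤ t → t < ε →
    (((2:ℝ) ^ m * t : ℝ) : X) = (((2:ℝ) ^ m' * t : ℝ) : X)) : m = m' := by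
  obtain ⟨ε, hε, H⟩ := h
  have p1 : (0:ℝ) < (2:ℝ) ^ m := by positivity
  have p2 : (0:ℝ) < (2:ℝ) ^ m' := by positivity
  set t : ℝ := min (ε / 2) (min (1 / (2 * (2:ℝ) ^ m)) (1 / (2 * (2:ℝ) ^ m'))) / 2 with ht
  have t0 : 0 < t := by positivity
  have ta : t < ε := by
    have := min_le_left (ε / 2) (min (1 / (2 * (2:ℝ) ^ m)) (1 / (2 * (2:ℝ) ^ m')))
    rw [ht]; linarith
  have tb : (2:ℝ) ^ m * t < 1/2 := by
    have h1 := (min_le_right (ε / 2) (min (1 / (2 * (2:ℝ) ^ m)) (1 / (2 * (2:ℝ) ^ m')))).trans (min_le_left _ _)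
    have h2 : t < 1 / (2 * (2:ℝ) ^ m) := by
      rw [ht]
      have : 0 < 1 / (2 * (2:ℝ) ^ m) := by positivity
      linarith
    rw [lt_div_iff₀ (by positivity)] at h2
    linarith
  have tc : (2:ℝ) ^ m' * t < 1/2 := by
    have h1 := (min_le_right (ε / 2) (min (1 / (2 * (2:ℝ) ^ m)) (1 / (2 * (2:ℝ) ^ m')))).trans (min_le_right _ _)
    have h2 : t < 1 / (2 * (2:ℝ) ^ m') := by
      rw [ht]
      have : 0 < 1 / (2 * (2:ℝ) ^ m') := by positivity
      linarith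
    rw [lt_div_iff₀ (by positivity)] at h2
    linarith
  obtain ⟨n, hn⟩ := (coe_eq_iff _ _).1 (H t t0.le ta)
  have q1 : 0 < (2:ℝ) ^ m * t := by positivity
  have q2 : 0 < (2:ℝ) ^ m' * t := by positivity
  have n1 : (n:ℝ) < 1 := by linarith
  have n2 : (-1:ℝ) < n := by linarith
  have n1' : n < 1 := by exact_mod_cast n1
  have n2' : -1 < n := by exact_mod_cast n2
  have n0 : n = 0 := by omega
  rw [n0] at hn
  simp only [Int.cast_zero, add_zero] at hn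
  have h3 := mul_right_cancel₀ t0.ne' hn
  exact zpow_right_injective₀ (by norm_num : (0:ℝ) < 2) (by norm_num) h3

theorem RS_unique {g : Equiv.Perm X} {x : X} {m m' : ℤ} (h : RS g x m) (h' : RS g x m') : m = m' := by
  obtain ⟨ε, hε, H⟩ := h
  obtain ⟨ε', hε', H'⟩ := h'
  refine pow2_unique m m' ⟨min ε ε', lt_min hε hε', fun t t0 tt => ?_⟩
  have h1 := H t t0 (tt.trans_le (min_le_left _ _))
  have h2 := H' t t0 (tt.trans_le (min_le_right _ _))
  rw [h1] at h2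
  exact add_left_cancel h2

theorem LS_unique {g : Equiv.Perm X} {x : X} {m m' : ℤ} (h : LS g x m) (h' : LS g x m') : m = m' := by
  obtain ⟨ε, hε, H⟩ := h
  obtain ⟨ε', hε', H'⟩ := h'
  refine pow2_unique m m' ⟨min ε ε', lt_min hε hε', fun t t0 tt => ?_⟩
  have h1 := H t t0 (tt.trans_le (min_le_left _ _))
  have h2 := H' t t0 (tt.trans_le (min_le_right _ _))
  rw [h1] at h2
  exact sub_right_injective h2

theorem RS_mul {g h : Equiv.Perm X} {x : X} {a b : ℤ} (hg : RS g (h x) a) (hh : RS h x b) :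
    RS (g * h) x (a + b) := by
  obtain ⟨ε, hε, H⟩ := hg
  obtain ⟨ε', hε', H'⟩ := hh
  have p : (0:ℝ) < (2:ℝ) ^ b := by positivity
  refine ⟨min ε' (ε / (2:ℝ) ^ b), lt_min hε' (by positivity), fun t t0 tt => ?_⟩
  have h1 := H' t t0 (tt.trans_le (min_le_left _ _))
  have h2 : (2:ℝ) ^ b * t < ε := by
    have := tt.trans_le (min_le_right _ _)
    rw [lt_div_iff₀ p] at this
    linarith
  rw [Equiv.Perm.mul_apply, Equiv.Perm.mul_apply, h1, H _ (by positivity) h2, zpow_add₀ two_ne_zero, mul_assoc]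

theorem LS_mul {g h : Equiv.Perm X} {x : X} {a b : ℤ} (hg : LS g (h x) a) (hh : LS h x b) :
    LS (g * h) x (a + b) := by
  obtain ⟨ε, hε, H⟩ := hg
  obtain ⟨ε', hε', H'⟩ := hh
  have p : (0:ℝ) < (2:ℝ) ^ b := by positivity
  refine ⟨min ε' (ε / (2:ℝ) ^ b), lt_min hε' (by positivity), fun t t0 tt => ?_⟩
  have h1 := H' t t0 (tt.trans_le (min_le_left _ _))
  have h2 : (2:ℝ) ^ b * t < ε := by
    have := tt.trans_le (min_le_right _ _)
    rw [lt_div_iff₀ p] at this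
    linarith
  rw [Equiv.Perm.mul_apply, Equiv.Perm.mul_apply, h1, H _ (by positivity) h2, zpow_add₀ two_ne_zero, mul_assoc]

theorem RS_inv {g : Equiv.Perm X} {x : X} {a : ℤ} (hg : RS g x a) : RS g⁻¹ (g x) (-a) := by
  obtain ⟨ε, hε, H⟩ := hg
  have p : (0:ℝ) < (2:ℝ) ^ a := by positivity
  refine ⟨(2:ℝ) ^ a * ε, by positivity, fun t t0 tt => ?_⟩
  have h1 := H ((2:ℝ) ^ (-a) * t) (by positivity) (by
    rw [zpow_neg, inv_mul_lt_iff₀ p]; exact tt)
  have h2 : (2:ℝ) ^ a * ((2:ℝ) ^ (-a) * t) = t := by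
    rw [zpow_neg]; field_simp
  rw [h2] at h1
  rw [← h1, inv_app, inv_app]

theorem LS_inv {g : Equiv.Perm X} {x : X} {a : ℤ} (hg : LS g x a) : LS g⁻¹ (g x) (-a) := by
  obtain ⟨ε, hε, H⟩ := hg
  have p : (0:ℝ) < (2:ℝ) ^ a := by positivity
  refine ⟨(2:ℝ) ^ a * ε, by positivity, fun t t0 tt => ?_⟩
  have h1 := H ((2:ℝ) ^ (-a) * t) (by positivity) (by
    rw [zpow_neg, inv_mul_lt_iff₀ p]; exact tt)
  have h2 : (2:ℝ) ^ a * ((2:ℝ) ^ (-a) * t) = t := by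
    rw [zpow_neg]; field_simp
  rw [h2] at h1
  rw [← h1, inv_app, inv_app]

theorem RS_one (x : X) : RS 1 x 0 := ⟨1, one_pos, fun t _ _ => by simp⟩
theorem LS_one (x : X) : LS 1 x 0 := ⟨1, one_pos, fun t _ _ => by simp⟩

/-- both one-sided slopes exist everywhere -/
def Sl (g : Equiv.Perm X) : Prop := ∀ x, (∃ m, RS g x m) ∧ (∃ m, LS g x m)

theorem Sl_Tset {f : Equiv.Perm X} (hf : f ∈ Tset) : Sl f := by
  obtain ⟨F, hF1, hF2, hF3, hF4, N, hN⟩ := hf
  intro x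
  induction x using X_ind with
  | h r =>
    have hp : (0:ℝ) < 2 ^ N := by positivity
    constructor
    · set k : ℤ := ⌊2 ^ N * r⌋ with hk
      have k1 : (k:ℝ) ≤ 2 ^ N * r := Int.floor_le _
      have k2 : 2 ^ N * r < k + 1 := Int.lt_floor_add_one _
      obtain ⟨m, p, q, H⟩ := hN k
      refine ⟨m, (k + 1) / 2 ^ N - r, ?_, fun t t0 tt => ?_⟩
      · rw [gt_iff_lt, sub_pos, lt_div_iff₀ hp]; linarith
      · rw [← AddCircle.coe_add, hF4, hF4, ← AddCircle.coe_add]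
        have h1 : r ∈ Set.Icc ((k:ℝ) / 2 ^ N) (((k:ℝ) + 1) / 2 ^ N) :=
          ⟨by rw [div_le_iff₀ hp]; linarith, by rw [le_div_iff₀ hp]; linarith⟩
        have h2 : r + t ∈ Set.Icc ((k:ℝ) / 2 ^ N) (((k:ℝ) + 1) / 2 ^ N) :=
          ⟨by linarith [h1.1], by linarith⟩
        rw [H _ h1, H _ h2]
        congr 1; ring
    · set k : ℤ := ⌈2 ^ N * r⌉ - 1 with hk
      have k1 : (k:ℝ) < 2 ^ N * r := by
        have := Int.ceil_lt_add_one (2 ^ N * r)
        rw [hk]; push_cast; linarith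
      have k2 : 2 ^ N * r ≤ k + 1 := by
        have := Int.le_ceil (2 ^ N * r)
        rw [hk]; push_cast; linarith
      obtain ⟨m, p, q, H⟩ := hN k
      refine ⟨m, r - k / 2 ^ N, ?_, fun t t0 tt => ?_⟩
      · rw [gt_iff_lt, sub_pos, div_lt_iff₀ hp]; linarith
      · rw [← AddCircle.coe_sub, hF4, hF4, ← AddCircle.coe_sub]
        have h1 : r ∈ Set.Icc ((k:ℝ) / 2 ^ N) (((k:ℝ) + 1) / 2 ^ N) :=
          ⟨by rw [div_le_iff₀ hp]; linarith, by rw [le_div_iff₀ hp]; linarith⟩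
        have h2 : r - t ∈ Set.Icc ((k:ℝ) / 2 ^ N) (((k:ℝ) + 1) / 2 ^ N) :=
          ⟨by linarith, by linarith [h1.2]⟩
        rw [H _ h1, H _ h2]
        congr 1; ring

theorem Sl_TT {g : Equiv.Perm X} (hg : g ∈ TT) : Sl g := by
  induction hg using Subgroup.closure_induction with
  | mem f hf => exact Sl_Tset hf
  | one => exact fun x => ⟨⟨0, RS_one x⟩, ⟨0, LS_one x⟩⟩
  | mul g h _ _ ihg ihh =>
    intro x
    obtain ⟨⟨a, ha⟩, ⟨b, hb⟩⟩ := ihg (h x)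
    obtain ⟨⟨c, hc⟩, ⟨d, hd⟩⟩ := ihh x
    exact ⟨⟨_, RS_mul ha hc⟩, ⟨_, LS_mul hb hd⟩⟩
  | inv g _ ih =>
    intro x
    obtain ⟨⟨a, ha⟩, ⟨b, hb⟩⟩ := ih (g⁻¹ x)
    have h1 := RS_inv ha
    have h2 := LS_inv hb
    rw [app_inv] at h1 h2
    exact ⟨⟨_, h1⟩, ⟨_, h2⟩⟩

open Classical in
/-- the jump of the logarithm of the slope -/
noncomputable def J (g : Equiv.Perm X) (x : X) : ℤ :=
  if h : (∃ m, RS g x m) ∧ (∃ m, LS g x m) then h.1.choose - h.2.choose else 0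

theorem J_eq {g : Equiv.Perm X} {x : X} {a b : ℤ} (ha : RS g x a) (hb : LS g x b) : J g x = a - b := by
  have h : (∃ m, RS g x m) ∧ (∃ m, LS g x m) := ⟨⟨a, ha⟩, ⟨b, hb⟩⟩
  unfold J
  rw [dif_pos h, RS_unique h.1.choose_spec ha, LS_unique h.2.choose_spec hb]

theorem J_one (x : X) : J 1 x = 0 := by rw [J_eq (RS_one x) (LS_one x)]; rfl

theorem J_mul {g h : Equiv.Perm X} (hg : g ∈ TT) (hh : h ∈ TT) (x : X) :
    J (g * h) x = J g (h x) + J h x := by
  obtain ⟨⟨a, ha⟩, ⟨b, hb⟩⟩ := Sl_TT hg (h x)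
  obtain ⟨⟨c, hc⟩, ⟨d, hd⟩⟩ := Sl_TT hh x
  rw [J_eq ha hb, J_eq hc hd, J_eq (RS_mul ha hc) (LS_mul hb hd)]
  ring

theorem J_inv {g : Equiv.Perm X} (hg : g ∈ TT) (x : X) : J g⁻¹ (g x) = - J g x := by
  obtain ⟨⟨a, ha⟩, ⟨b, hb⟩⟩ := Sl_TT hg x
  rw [J_eq ha hb, J_eq (RS_inv ha) (LS_inv hb)]
  ring

theorem J_finite {g : Equiv.Perm X} (hg : g ∈ TT) : {x | J g x ≠ 0}.Finite := by
  induction hg using Subgroup.closure_induction with
  | mem f hf =>
    obtain ⟨F, hF1, hF2, hF3, hF4, N, hN⟩ := hf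
    have hp : (0:ℝ) < 2 ^ N := by positivity
    have hfin : ((fun k : ℕ => (((k:ℝ) / 2 ^ N : ℝ) : X)) '' (Set.Iio (2 ^ N))).Finite :=
      (Set.finite_Iio _).image _
    refine hfin.subset fun x hx => ?_
    induction x using X_ind with
    | h r =>
      -- if `2^N r` is not an integer the jump vanishes
      by_contra hcon
      apply hx
      set k : ℤ := ⌊2 ^ N * r⌋ with hk
      have k1 : (k:ℝ) ≤ 2 ^ N * r := Int.floor_le _
      have k2 : 2 ^ N * r < k + 1 := Int.lt_floor_add_one _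
      have k3 : (k:ℝ) ≠ 2 ^ N * r := by
        intro heq
        apply hcon
        have hk0 : 0 ≤ k % 2 ^ N := Int.emod_nonneg _ (by positivity)
        have hk1 : k % 2 ^ N < 2 ^ N := Int.emod_lt_of_pos _ (by positivity)
        obtain ⟨k', hk'⟩ := Int.eq_ofNat_of_zero_le hk0
        have hk'2 : k' < 2 ^ N := by
          have : (k' : ℤ) < 2 ^ N := by rw [← hk']; exact hk1
          exact_mod_cast this
        refine ⟨k', hk'2, ?_⟩
        have hkk : k = 2 ^ N * (k / 2 ^ N) + k' := by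
          rw [← hk']; exact (Int.mul_ediv_add_emod k (2^N)).symm
        show (((k':ℝ) / 2 ^ N : ℝ) : X) = (r : X)
        rw [coe_eq_iff]
        refine ⟨-(k / 2 ^ N), ?_⟩
        have hkk' : (k:ℝ) = 2 ^ N * ((k / 2 ^ N : ℤ) : ℝ) + k' := by exact_mod_cast hkk
        have hr : r = (k:ℝ) / 2 ^ N := by rw [heq]; field_simp
        rw [hr, hkk']
        push_cast
        field_simp
        ring
      have k4 : (k:ℝ) < 2 ^ N * r := lt_of_le_of_ne k1 k3
      obtain ⟨m, p, q, H⟩ := hN k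
      have h1 : r ∈ Set.Icc ((k:ℝ) / 2 ^ N) (((k:ℝ) + 1) / 2 ^ N) :=
          ⟨by rw [div_le_iff₀ hp]; linarith, by rw [le_div_iff₀ hp]; linarith⟩
      have r1 : RS f (r : X) m := by
        refine ⟨(k + 1) / 2 ^ N - r, ?_, fun t t0 tt => ?_⟩
        · rw [gt_iff_lt, sub_pos, lt_div_iff₀ hp]; linarith
        · rw [← AddCircle.coe_add, hF4, hF4, ← AddCircle.coe_add]
          have h2 : r + t ∈ Set.Icc ((k:ℝ) / 2 ^ N) (((k:ℝ) + 1) / 2 ^ N) :=
            ⟨by linarith [h1.1], by linarith⟩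
          rw [H _ h1, H _ h2]
          congr 1; ring
      have l1 : LS f (r : X) m := by
        refine ⟨r - k / 2 ^ N, ?_, fun t t0 tt => ?_⟩
        · rw [gt_iff_lt, sub_pos, div_lt_iff₀ hp]; linarith
        · rw [← AddCircle.coe_sub, hF4, hF4, ← AddCircle.coe_sub]
          have h2 : r - t ∈ Set.Icc ((k:ℝ) / 2 ^ N) (((k:ℝ) + 1) / 2 ^ N) :=
            ⟨by linarith, by linarith [h1.2]⟩
          rw [H _ h1, H _ h2]
          congr 1; ring
      rw [J_eq r1 l1, sub_self]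
  | one => simp [J_one]
  | mul g h hg hh ihg ihh =>
    refine (ihh.union (ihg.preimage (f := h) h.injective.injOn)).subset fun x hx => ?_
    by_cases h1 : J h x = 0
    · right
      show J g (h x) ≠ 0
      intro h2
      apply hx
      rw [J_mul hg hh, h1, h2, add_zero]
    · left; exact h1
  | inv g hg ih =>
    refine (ih.image g).subset fun x hx => ?_
    refine ⟨g⁻¹ x, ?_, app_inv g x⟩
    show J g (g⁻¹ x) ≠ 0
    intro h
    apply hx
    have := J_inv hg (g⁻¹ x)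
    rw [app_inv] at this
    rw [this, h, neg_zero]

/-- dyadic rationals -/
def Dy (r : ℝ) : Prop := ∃ (a : ℤ) (n : ℕ), r = a / 2 ^ n

theorem Dy_add {r s : ℝ} (hr : Dy r) (hs : Dy s) : Dy (r + s) := by
  obtain ⟨a, n, rfl⟩ := hr
  obtain ⟨b, m, rfl⟩ := hs
  refine ⟨a * 2 ^ m + b * 2 ^ n, n + m, ?_⟩
  push_cast
  rw [pow_add]
  field_simp

theorem Dy_neg {r : ℝ} (hr : Dy r) : Dy (-r) := by
  obtain ⟨a, n, rfl⟩ := hr
  exact ⟨-a, n, by push_cast; ring⟩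

theorem Dy_int (n : ℤ) : Dy n := ⟨n, 0, by simp⟩

theorem Dy_zpow {r : ℝ} (hr : Dy r) (m : ℤ) : Dy ((2:ℝ) ^ m * r) := by
  obtain ⟨a, n, rfl⟩ := hr
  obtain ⟨k, rfl | rfl⟩ := m.eq_nat_or_neg
  · refine ⟨2 ^ k * a, n, ?_⟩
    rw [zpow_natCast]; push_cast; ring
  · refine ⟨a, k + n, ?_⟩
    rw [zpow_neg, zpow_natCast, pow_add]; field_simp

/-- dyadic points of the circle -/
def Y : Set X := {x | ∃ r, Dy r ∧ x = (r : X)}

theorem mem_Y (r : ℝ) : (r : X) ∈ Y ↔ Dy r := by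
  constructor
  · rintro ⟨s, hs, h⟩
    obtain ⟨n, hn⟩ := (coe_eq_iff _ _).1 h
    rw [hn]
    exact Dy_add hs (Dy_int n)
  · intro h; exact ⟨r, h, rfl⟩

theorem Y_countable : Y.Countable := by
  have : Y ⊆ Set.range (fun p : ℤ × ℕ => (((p.1:ℝ) / 2 ^ p.2 : ℝ) : X)) := by
    rintro x ⟨r, ⟨a, n, rfl⟩, rfl⟩
    exact ⟨(a, n), rfl⟩
  exact (Set.countable_range _).mono this

theorem Y_TT {g : Equiv.Perm X} (hg : g ∈ TT) : ∀ x, x ∈ Y ↔ g x ∈ Y := by
  induction hg using Subgroup.closure_induction with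
  | mem f hf =>
    obtain ⟨F, hF1, hF2, hF3, hF4, N, hN⟩ := hf
    intro x
    induction x using X_ind with
    | h r =>
      have hp : (0:ℝ) < 2 ^ N := by positivity
      rw [hF4, mem_Y, mem_Y]
      set k : ℤ := ⌊2 ^ N * r⌋ with hk
      have k1 : (k:ℝ) ≤ 2 ^ N * r := Int.floor_le _
      have k2 : 2 ^ N * r < k + 1 := Int.lt_floor_add_one _
      obtain ⟨m, p, q, H⟩ := hN k
      have h1 : r ∈ Set.Icc ((k:ℝ) / 2 ^ N) (((k:ℝ) + 1) / 2 ^ N) :=
          ⟨by rw [div_le_iff₀ hp]; linarith, by rw [le_div_iff₀ hp]; linarith⟩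
      rw [H r h1]
      constructor
      · intro h; exact Dy_add (Dy_zpow h m) ⟨p, q, rfl⟩
      · intro h
        have h2 := Dy_zpow (Dy_add h (Dy_neg ⟨p, q, rfl⟩)) (-m)
        have h3 : (2:ℝ) ^ (-m) * (2 ^ m * r + p / 2 ^ q + -(p / 2 ^ q)) = r := by
          rw [zpow_neg]; field_simp; ring
        rwa [h3] at h2
  | one => intro x; rfl
  | mul g h _ _ ihg ihh => intro x; rw [ihh x, ihg (h x)]; rfl
  | inv g _ ih =>
    intro x
    have := ih (g⁻¹ x)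
    rw [app_inv] at this
    exact this.symm

end Pool.Agent.Helper889
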