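import Mathlib
import Pool.Agent.Helper889.Cocycle

set_option autoImplicit false
set_option linter.unusedSectionVars false

namespace Pool.Agent.Helper889

open Tr

/-- scale a tree into the first half, `m` times -/
def sc : ℕ → Tr → Tr
  | 0, t => t
  | (m+1), t => .node (sc m t) .leaf

theorem nl_sc (m : ℕ) (t : Tr) : nl (sc m t) = nl t + m := by
  induction m with
  | zero => rfl
  | succ m ih => simp only [sc, nl, ih]; ring

def s0 : Tr := .node .leaf (.node .leaf .leaf)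
def t0 : Tr := .node (.node .leaf .leaf) .leaf

/-- the basic map on `[0,1]` scaled into `[0, 2^-m]` -/
noncomputable def cc (m : ℕ) (u : ℝ) : ℝ := psi (sc m t0) (phi (sc m s0) u)

theorem cc_zero_a (u : ℝ) (h : u ≤ 1/2) : cc 0 u = u / 2 := by
  unfold cc
  simp only [sc, s0, t0]
  rw [phi_node_left _ _ _ h]
  simp only [phi]
  rw [psi_node_left _ _ _ (by simp only [nl]; push_cast; linarith), psi_node_left _ _ _ (by simp only [nl]; push_cast; linarith)]
  simp only [psi]; ring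

theorem cc_zero_b (u : ℝ) (h : 1/2 ≤ u) (h' : u ≤ 3/4) : cc 0 u = u - 1/4 := by
  unfold cc
  simp only [sc, s0, t0]
  rw [phi_node_right _ _ _ h, phi_node_left _ _ _ (by linarith)]
  simp only [phi, nl]
  rw [psi_node_left _ _ _ (by simp only [nl]; push_cast; linarith), psi_node_right _ _ _ (by simp only [nl]; push_cast; linarith)]
  simp only [psi, nl]; push_cast; ring

theorem cc_succ_left (m : ℕ) (u : ℝ) (h : u ≤ 1/2) : cc (m+1) u = cc m (2 * u) / 2 := by
  unfold cc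
  simp only [sc]
  rw [phi_node_left _ _ _ h, psi_node_left]
  have : nl (sc m t0) = nl (sc m s0) := by rw [nl_sc, nl_sc]; rfl
  rw [this, ← phi_one (sc m s0)]
  exact (phi_mono _).monotone (by linarith)

theorem cc_succ_right (m : ℕ) (u : ℝ) (h : 1/2 ≤ u) : cc (m+1) u = u := by
  unfold cc
  simp only [sc]
  have e1 : nl (sc m t0) = nl (sc m s0) := by rw [nl_sc, nl_sc]; rfl
  rw [phi_node_right _ _ _ h, ← e1, psi_node_right]
  · simp only [phi, psi]; ring
  · simp only [phi]; linarith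

theorem cc_fix (m : ℕ) (u : ℝ) (h : 1 ≤ 2 ^ m * u) (h1 : u ≤ 1) : cc m u = u := by
  induction m generalizing u with
  | zero =>
    have : u = 1 := le_antisymm h1 (by simpa using h)
    rw [this]
    unfold cc
    rw [phi_one]
    have : nl (sc 0 s0) = nl (sc 0 t0) := rfl
    rw [this, psi_nl]
  | succ m ih =>
    by_cases hu : u ≤ 1/2
    · rw [cc_succ_left m u hu, ih (2 * u) (by rw [pow_succ] at h; linarith) (by linarith)]; ring
    · exact cc_succ_right m u (by linarith)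

theorem cc_half (m : ℕ) (u : ℝ) (h : 2 ^ m * u ≤ 1/2) : cc m u = u / 2 := by
  induction m generalizing u with
  | zero => exact cc_zero_a u (by simpa using h)
  | succ m ih =>
    rw [pow_succ] at h
    have hp : (1:ℝ) ≤ 2 ^ m := one_le_pow₀ (by norm_num)
    have hu : u ≤ 1/2 := by
      by_contra hcon
      push Not at hcon
      nlinarith
    rw [cc_succ_left m u hu, ih (2 * u) (by linarith)]; ring

/-- basic element supported on `[0, 2^-m]` -/
noncomputable def A0 (m : ℕ) : Equiv.Perm X := e (sc m s0) (sc m t0) (by rw [nl_sc, nl_sc]; rfl)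

theorem A0_TT (m : ℕ) : A0 m ∈ TT := Subgroup.subset_closure (e_Tset _ _ _)

theorem A0_coe (m : ℕ) (u : ℝ) (h0 : 0 ≤ u) (h1 : u ≤ 1) : A0 m (u : X) = ((cc m u : ℝ) : X) := by
  unfold A0
  rw [e_coe, EE_eq _ _ (by rw [nl_sc, nl_sc]; rfl) 0 u (by simpa using h0) (by simpa using h1)]
  simp only [Int.cast_zero, zero_add, sub_zero]
  rfl

theorem rot_TT {c : ℝ} (hc : Dy c) : rot c ∈ TT := by
  obtain ⟨a, n, rfl⟩ := hc
  exact Subgroup.subset_closure (rot_Tset a n)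

/-- basic element supported on `[p, p + 2^-m]` -/
noncomputable def A (p : ℝ) (m : ℕ) : Equiv.Perm X := rot p * (A0 m * rot (-p))

theorem A_TT {p : ℝ} (hp : Dy p) (m : ℕ) : A p m ∈ TT :=
  mul_mem (rot_TT hp) (mul_mem (A0_TT m) (rot_TT (Dy_neg hp)))

theorem A_coe (p : ℝ) (m : ℕ) (u : ℝ) (h0 : 0 ≤ u) (h1 : u ≤ 1) :
    A p m ((p + u : ℝ) : X) = ((p + cc m u : ℝ) : X) := by
  unfold A
  rw [Equiv.Perm.mul_apply, Equiv.Perm.mul_apply, rot_coe]
  rw [show p + u + -p = u by ring, A0_coe m u h0 h1, rot_coe, add_comm]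

theorem A_fix (p : ℝ) (m : ℕ) (z : ℝ) (h : 1 ≤ 2 ^ m * (z - p)) (h1 : z ≤ p + 1) :
    A p m (z : X) = (z : X) := by
  have hp : (0:ℝ) < 2 ^ m := by positivity
  have h0 : 0 ≤ z - p := by
    by_contra hcon
    push Not at hcon
    nlinarith
  have := A_coe p m (z - p) h0 (by linarith)
  rw [cc_fix m _ h (by linarith), show p + (z - p) = z by ring] at this
  exact this

theorem A_half (p : ℝ) (m : ℕ) (u : ℝ) (h0 : 0 ≤ u) (h : 2 ^ m * u ≤ 1/2) :
    A p m ((p + u : ℝ) : X) = ((p + u / 2 : ℝ) : X) := by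
  have hp : (1:ℝ) ≤ 2 ^ m := one_le_pow₀ (by norm_num)
  have h1 : u ≤ 1 := by
    by_contra hcon
    push Not at hcon
    nlinarith
  rw [A_coe p m u h0 h1, cc_half m u h]

theorem A_J (p : ℝ) (m : ℕ) (hm : 1 ≤ m) : J (A p m) (p : X) = -1 := by
  have hp : (0:ℝ) < 2 ^ m := by positivity
  have hfix : A p m (p : X) = (p : X) := by
    have := A_half p m 0 le_rfl (by simp)
    simpa using this
  have hr : RS (A p m) (p : X) (-1) := by
    refine ⟨1 / (2 * 2 ^ m), by positivity, fun t t0 tt => ?_⟩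
    rw [lt_div_iff₀ (by positivity)] at tt
    rw [hfix, ← AddCircle.coe_add, A_half p m t t0 (by linarith), ← AddCircle.coe_add]
    congr 1
    rw [zpow_neg, zpow_one]; ring
  have hl : LS (A p m) (p : X) 0 := by
    refine ⟨1/2, by norm_num, fun t t0 tt => ?_⟩
    rw [hfix, ← AddCircle.coe_sub, ← AddCircle.coe_sub]
    have e1 : ((p - t : ℝ) : X) = ((p + (1 - t) : ℝ) : X) := by
      rw [coe_eq_iff]; exact ⟨-1, by push_cast; ring⟩
    have h2 : (2:ℝ) ≤ 2 ^ m := by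
      calc (2:ℝ) = 2 ^ 1 := by norm_num
        _ ≤ 2 ^ m := pow_le_pow_right₀ (by norm_num) hm
    rw [e1, A_fix p m (p + (1 - t)) (by rw [add_sub_cancel_left]; nlinarith) (by linarith), ← e1, zpow_zero, one_mul]
  rw [J_eq hr hl]
  norm_num

/-- reachable by an element of `T` that fixes `x₀` -/
def Rch (x₀ y y' : X) : Prop := ∃ c ∈ TT, c x₀ = x₀ ∧ c y = y'

theorem Rch.refl (x₀ y : X) : Rch x₀ y y := ⟨1, one_mem _, rfl, rfl⟩

theorem Rch.symm {x₀ y y' : X} (h : Rch x₀ y y') : Rch x₀ y' y := by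
  obtain ⟨c, hc, h1, h2⟩ := h
  refine ⟨c⁻¹, inv_mem hc, ?_, ?_⟩
  · rw [← h1, inv_app, h1]
  · rw [← h2, inv_app]

theorem Rch.trans {x₀ y y' y'' : X} (h : Rch x₀ y y') (h' : Rch x₀ y' y'') : Rch x₀ y y'' := by
  obtain ⟨c, hc, h1, h2⟩ := h
  obtain ⟨d, hd, h3, h4⟩ := h'
  refine ⟨d * c, mul_mem hd hc, ?_, ?_⟩
  · rw [Equiv.Perm.mul_apply, h1, h3]
  · rw [Equiv.Perm.mul_apply, h2, h4]

/-- one small step to the left -/
theorem move (z ξ : ℝ) (m : ℕ) (hz : Dy z) (h1 : z + 2 * (1 / 2 ^ (m+2)) ≤ ξ)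
    (h2 : ξ ≤ z - 2 * (1 / 2 ^ (m+2)) + 1) :
    Rch (ξ : X) (z : X) ((z - 1 / 2 ^ (m+2) : ℝ) : X) := by
  have hδ : (4:ℝ) * (1 / 2 ^ (m+2)) = 1 / 2 ^ m := by rw [pow_add]; field_simp; norm_num
  have hp : (0:ℝ) < 2 ^ m := by positivity
  set δ : ℝ := 1 / 2 ^ (m+2) with hd
  have hδ' : 2 ^ m * (4 * δ) = 1 := by rw [hδ]; field_simp
  have hdy : Dy (z - 2 * δ) := by
    have h3 : Dy (-(2 * δ)) := Dy_neg ⟨2, m+2, by rw [hd]; push_cast; ring⟩
    exact Dy_add hz h3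
  refine ⟨A (z - 2 * δ) m, A_TT hdy m, ?_, ?_⟩
  · apply A_fix
    · nlinarith
    · linarith
  · have := A_half (z - 2 * δ) m (2 * δ) (by positivity) (by linarith)
    rw [show z - 2 * δ + 2 * δ = z by ring, show z - 2 * δ + 2 * δ / 2 = z - δ by ring] at this
    exact this

/-- the stabiliser of a non-dyadic point is transitive on dyadic points -/
theorem stab_trans (x₀ y : X) (hx : x₀ ∉ Y) (hy : y ∈ Y) : Rch x₀ 0 y := by
  -- representatives
  obtain ⟨ξ, ⟨hξ0, hξ1⟩, rfl⟩ : ∃ ξ : ℝ, (0 ≤ ξ ∧ ξ < 1) ∧ x₀ = (ξ : X) := by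
    induction x₀ using X_ind with
    | h r =>
      refine ⟨Int.fract r, ⟨Int.fract_nonneg r, Int.fract_lt_one r⟩, ?_⟩
      rw [coe_eq_iff]; exact ⟨⌊r⌋, (Int.fract_add_floor r).symm⟩
  rw [mem_Y] at hx
  have hξ0' : 0 < ξ := lt_of_le_of_ne hξ0 (fun h => hx (by rw [← h]; exact ⟨0, 0, by simp⟩))
  obtain ⟨η, ⟨hη0, hη1⟩, hηd, rfl⟩ : ∃ η : ℝ, (0 ≤ η ∧ η < 1) ∧ Dy η ∧ y = (η : X) := by
    obtain ⟨r, hr, rfl⟩ := hy
    refine ⟨Int.fract r, ⟨Int.fract_nonneg r, Int.fract_lt_one r⟩, ?_, ?_⟩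
    · have : Int.fract r = r + ((-⌊r⌋ : ℤ) : ℝ) := by unfold Int.fract; push_cast; ring
      rw [this]; exact Dy_add hr (Dy_int _)
    · rw [coe_eq_iff]; exact ⟨⌊r⌋, (Int.fract_add_floor r).symm⟩
  have hne : η ≠ ξ := fun h => hx (h ▸ hηd)
  obtain ⟨a, n, ha⟩ := hηd
  rcases lt_or_gt_of_ne hne with hlt | hgt
  · -- go from η down to 0
    obtain ⟨l, hl⟩ : ∃ l : ℕ, 2 / min (ξ - η) (1 - ξ) < 2 ^ l := pow_unbounded_of_one_lt _ (by norm_num)
    have hmin : 0 < min (ξ - η) (1 - ξ) := lt_min (by linarith) (by linarith)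
    set m := l + n with hm
    set δ : ℝ := 1 / 2 ^ (m+2) with hδ
    have hδ0 : 0 < δ := by positivity
    have hδs : 2 * δ < min (ξ - η) (1 - ξ) := by
      rw [div_lt_iff₀ hmin] at hl
      have h3 : (2:ℝ) ^ l ≤ 2 ^ (m+2) := pow_le_pow_right₀ (by norm_num) (by omega)
      rw [hδ, mul_one_div, div_lt_iff₀ (by positivity)]
      nlinarith
    have hδ1 := hδs.trans_le (min_le_left _ _)
    have hδ2 := hδs.trans_le (min_le_right _ _)
    have hdyk : ∀ k : ℕ, Dy (k * δ) := fun k => ⟨k, m+2, by rw [hδ]; push_cast; ring⟩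
    have key : ∀ k : ℕ, k * δ ≤ η → Rch (ξ : X) ((k * δ : ℝ) : X) 0 := by
      intro k
      induction k with
      | zero => intro _; simp only [Nat.cast_zero, zero_mul]; exact Rch.refl _ _
      | succ k ih =>
        intro hk
        have hk' : (k:ℝ) * δ ≤ η := by push_cast at hk; nlinarith
        have hstep := move (((k+1 : ℕ) : ℝ) * δ) ξ m (hdyk (k+1)) (by linarith) (by
          push_cast
          nlinarith [mul_nonneg (Nat.cast_nonneg (α := ℝ) k) hδ0.le])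
        have e1 : ((k+1 : ℕ) : ℝ) * δ - 1 / 2 ^ (m+2) = k * δ := by push_cast; ring
        rw [e1] at hstep
        exact hstep.trans (ih hk')
    -- η is a multiple of δ
    have hηk : ∃ k : ℕ, η = k * δ := by
      have ha0 : 0 ≤ a := by
        have h3 : (0:ℝ) ≤ a / 2 ^ n := by rw [← ha]; exact hη0
        have h4 : (0:ℝ) ≤ a := by
          by_contra hcon
          push Not at hcon
          have := div_neg_of_neg_of_pos hcon (show (0:ℝ) < 2 ^ n by positivity)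
          linarith
        exact_mod_cast h4
      obtain ⟨a', rfl⟩ := Int.eq_ofNat_of_zero_le ha0
      refine ⟨a' * 2 ^ (l + 2), ?_⟩
      rw [ha, hδ, hm]
      push_cast
      rw [show l + n + 2 = (l + 2) + n by ring, pow_add 2 (l+2) n]
      field_simp
    obtain ⟨k, hk⟩ := hηk
    have := key k hk.symm.le
    rw [← hk] at this
    exact this.symm
  · -- go from 1 down to η
    obtain ⟨l, hl⟩ : ∃ l : ℕ, 2 / min (η - ξ) ξ < 2 ^ l := pow_unbounded_of_one_lt _ (by norm_num)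
    have hmin : 0 < min (η - ξ) ξ := lt_min (by linarith) hξ0'
    set m := l + n with hm
    set δ : ℝ := 1 / 2 ^ (m+2) with hδ
    have hδ0 : 0 < δ := by positivity
    have hδs : 2 * δ < min (η - ξ) ξ := by
      rw [div_lt_iff₀ hmin] at hl
      have h3 : (2:ℝ) ^ l ≤ 2 ^ (m+2) := pow_le_pow_right₀ (by norm_num) (by omega)
      rw [hδ, mul_one_div, div_lt_iff₀ (by positivity)]
      nlinarith
    have hδ1 := hδs.trans_le (min_le_left _ _)
    have hδ2 := hδs.trans_le (min_le_right _ _)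
    have hx1 : ((ξ + 1 : ℝ) : X) = (ξ : X) := (coe_eq_iff _ _).2 ⟨1, by push_cast; ring⟩
    have key : ∀ k : ℕ, η ≤ 1 - k * δ → Rch (ξ : X) 0 ((1 - k * δ : ℝ) : X) := by
      intro k
      induction k with
      | zero =>
        intro _
        have : ((1 - ((0:ℕ):ℝ) * δ : ℝ) : X) = 0 := by
          have h3 : ((1 - ((0:ℕ):ℝ) * δ : ℝ) : X) = ((0:ℝ) : X) := (coe_eq_iff _ _).2 ⟨1, by push_cast; ring⟩
          rw [h3]; simp
        rw [this]; exact Rch.refl _ _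
      | succ k ih =>
        intro hk
        have hk2 : η ≤ 1 - k * δ - δ := by push_cast at hk; linarith
        have hdy : Dy (1 - k * δ) := by
          have h3 : Dy ((1:ℤ):ℝ) := Dy_int 1
          have h4 : Dy (-(k * δ)) := Dy_neg ⟨k, m+2, by rw [hδ]; push_cast; ring⟩
          have := Dy_add h3 h4
          push_cast at this
          exact this
        have hkd : 0 ≤ (k:ℝ) * δ := by positivity
        have hstep := move (1 - k * δ) (ξ + 1) m hdy (by linarith) (by linarith)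
        rw [hx1] at hstep
        have e1 : 1 - (k:ℝ) * δ - 1 / 2 ^ (m+2) = 1 - ((k+1 : ℕ) : ℝ) * δ := by push_cast; ring
        rw [e1] at hstep
        exact (ih (by linarith)).trans hstep
    have hηk : ∃ k : ℕ, η = 1 - k * δ := by
      have ha0 : a ≤ 2 ^ n := by
        have h3 : (a:ℝ) / 2 ^ n ≤ 1 := by rw [← ha]; exact hη1.le
        rw [div_le_one (by positivity)] at h3
        exact_mod_cast h3
      obtain ⟨a', ha'⟩ := Int.le.dest ha0
      refine ⟨a' * 2 ^ (l + 2), ?_⟩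
      have ha2 : (a:ℝ) = 2 ^ n - a' := by
        have : (a:ℝ) + a' = 2 ^ n := by exact_mod_cast ha'
        linarith
      rw [ha, hδ, hm, ha2]
      push_cast
      rw [show l + n + 2 = (l + 2) + n by ring, pow_add 2 (l+2) n]
      field_simp
    obtain ⟨k, hk⟩ := hηk
    have := key k hk.le
    rw [← hk] at this
    exact this

/-- the stabiliser of a non-dyadic point and a dyadic point takes all jump values -/
theorem stab_jump (x₀ y : X) (hx : x₀ ∉ Y) (hy : y ∈ Y) (j : ℤ) :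
    ∃ c ∈ TT, c x₀ = x₀ ∧ c y = y ∧ J c y = j := by
  obtain ⟨p, hp, rfl⟩ := hy
  -- representative of x₀ just after p
  obtain ⟨ξ, hξ0, hξ1, rfl⟩ : ∃ ξ : ℝ, p ≤ ξ ∧ ξ ≤ p + 1 ∧ x₀ = (ξ : X) := by
    induction x₀ using X_ind with
    | h r =>
      refine ⟨p + Int.fract (r - p), by linarith [Int.fract_nonneg (r - p)], by linarith [Int.fract_lt_one (r-p)], ?_⟩
      rw [coe_eq_iff]
      refine ⟨⌊r - p⌋, ?_⟩
      have := Int.fract_add_floor (r - p)
      linarith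
  rw [mem_Y] at hx
  have hne : p < ξ := lt_of_le_of_ne hξ0 (fun h => hx (h ▸ hp))
  obtain ⟨l, hl⟩ : ∃ l : ℕ, 1 / (ξ - p) < 2 ^ l := pow_unbounded_of_one_lt _ (by norm_num)
  have hpos : 0 < ξ - p := by linarith
  rw [div_lt_iff₀ hpos] at hl
  set g := A p (l+1) with hg
  have g1 : g ∈ TT := A_TT hp _
  have g2 : g (ξ : X) = (ξ : X) := A_fix p _ ξ (by rw [pow_succ]; nlinarith) hξ1
  have g3 : g (p : X) = (p : X) := by
    have := A_half p (l+1) 0 le_rfl (by simp)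
    simpa using this
  have g4 : J g (p : X) = -1 := A_J p (l+1) (by omega)
  have hpow : ∀ n : ℕ, g ^ n ∈ TT ∧ (g ^ n) (ξ : X) = (ξ : X) ∧ (g ^ n) (p : X) = (p : X) ∧ J (g ^ n) (p : X) = -n := by
    intro n
    induction n with
    | zero => exact ⟨one_mem _, rfl, rfl, by simp [J_one]⟩
    | succ n ih =>
      obtain ⟨i1, i2, i3, i4⟩ := ih
      rw [pow_succ]
      refine ⟨mul_mem i1 g1, ?_, ?_, ?_⟩
      · rw [Equiv.Perm.mul_apply, g2, i2]
      · rw [Equiv.Perm.mul_apply, g3, i3]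
      · rw [J_mul i1 g1, g3, i4, g4]; push_cast; ring
  rcases le_total j 0 with h | h
  · obtain ⟨n, hn⟩ := Int.eq_ofNat_of_zero_le (show 0 ≤ -j by omega)
    obtain ⟨i1, i2, i3, i4⟩ := hpow n
    exact ⟨g ^ n, i1, i2, i3, by rw [i4]; omega⟩
  · obtain ⟨n, rfl⟩ := Int.eq_ofNat_of_zero_le h
    obtain ⟨i1, i2, i3, i4⟩ := hpow n
    refine ⟨(g ^ n)⁻¹, inv_mem i1, ?_, ?_, ?_⟩
    · nth_rewrite 1 [← i2]; rw [inv_app]
    · nth_rewrite 1 [← i3]; rw [inv_app]
    · have := J_inv i1 (p : X)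
      rw [i3, i4] at this
      rw [this]; omega

/-- the stabiliser of a non-dyadic point is transitive on states -/
theorem stab_state (x₀ y : X) (hx : x₀ ∉ Y) (hy : y ∈ Y) (j : ℤ) :
    ∃ c ∈ TT, c x₀ = x₀ ∧ c 0 = y ∧ J c 0 = j := by
  obtain ⟨c, hc, h1, h2⟩ := stab_trans x₀ y hx hy
  obtain ⟨d, hd, h3, h4, h5⟩ := stab_jump x₀ y hx hy (j - J c 0)
  refine ⟨d * c, mul_mem hd hc, ?_, ?_, ?_⟩
  · rw [Equiv.Perm.mul_apply, h1, h3]
  · rw [Equiv.Perm.mul_apply, h2, h4]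
  · rw [J_mul hd hc, h2, h5]; ring

/-- doubling is piecewise in `T` -/
theorem doubling : ∃ D : Fin 4 → Equiv.Perm X, (∀ i, D i ∈ TT) ∧ ∀ x : X, ∃ i, D i x = x + x := by
  refine ⟨fun i => rot ((i:ℝ) / 2) * ((A0 0)⁻¹ * rot (-((i:ℝ) / 4))), fun i => ?_, fun x => ?_⟩
  · refine mul_mem (rot_TT ⟨i, 1, by push_cast; ring⟩) (mul_mem (inv_mem (A0_TT 0)) (rot_TT (Dy_neg ⟨i, 2, by push_cast; ring⟩)))
  · obtain ⟨r, ⟨hr0, hr1⟩, rfl⟩ : ∃ r : ℝ, (0 ≤ r ∧ r < 1) ∧ x = (r : X) := by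
      induction x using X_ind with
      | h r =>
        refine ⟨Int.fract r, ⟨Int.fract_nonneg r, Int.fract_lt_one r⟩, ?_⟩
        rw [coe_eq_iff]; exact ⟨⌊r⌋, (Int.fract_add_floor r).symm⟩
    have hfl0 : 0 ≤ ⌊4 * r⌋ := Int.floor_nonneg.2 (by linarith)
    obtain ⟨i, hi⟩ := Int.eq_ofNat_of_zero_le hfl0
    have f1 : ((⌊4 * r⌋ : ℤ) : ℝ) ≤ 4 * r := Int.floor_le _
    have f2 : 4 * r < ((⌊4 * r⌋ : ℤ) : ℝ) + 1 := Int.lt_floor_add_one _
    rw [hi] at f1 f2
    have hi4 : i < 4 := by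
      have : ((i:ℤ):ℝ) < 4 := by linarith
      exact_mod_cast this
    refine ⟨⟨i, hi4⟩, ?_⟩
    simp only [Int.cast_natCast] at f1 f2
    rw [Equiv.Perm.mul_apply, Equiv.Perm.mul_apply, rot_coe]
    set u : ℝ := r - i / 4 with hu
    have u0 : 0 ≤ u := by rw [hu]; linarith
    have u1 : u ≤ 1/4 := by rw [hu]; linarith
    have e1 : r + -((((⟨i, hi4⟩ : Fin 4) : ℕ) : ℝ) / 4) = u := by rw [hu]; ring
    rw [e1]
    have h2 : A0 0 ((2 * u : ℝ) : X) = (u : X) := by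
      rw [A0_coe 0 _ (by linarith) (by linarith), cc_zero_a _ (by linarith)]
      congr 1; ring
    rw [← h2, inv_app, rot_coe, ← AddCircle.coe_add]
    congr 1
    rw [hu]; ring

end Pool.Agent.Helper889
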