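import Mathlib
import Pool.Agent.Helper889.Moves

set_option autoImplicit false
set_option linter.unusedSectionVars false

namespace Pool.Agent.Helper889

open Filter Topology

/-- representative in `[0,1)` -/
noncomputable def rep (x : X) : ℝ := (AddCircle.equivIco 1 0 x : ℝ)

theorem rep_mem (x : X) : 0 ≤ rep x ∧ rep x < 1 := by
  have h := (AddCircle.equivIco 1 0 x).2
  have h2 : rep x ∈ Set.Ico (0:ℝ) (0 + 1) := h
  rw [zero_add] at h2
  exact h2

theorem rep_coe (x : X) : ((rep x : ℝ) : X) = x := by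
  unfold rep
  exact (AddCircle.equivIco 1 0).symm_apply_apply x

theorem rep_of (x : X) (r : ℝ) (h0 : 0 ≤ r) (h1 : r < 1) (h : (r : X) = x) : rep x = r := by
  have h2 : ((rep x : ℝ) : X) = (r : X) := by rw [rep_coe, h]
  obtain ⟨a, b⟩ := rep_mem x
  obtain ⟨n, hn⟩ := (coe_eq_iff _ _).1 h2
  have n1 : (n:ℝ) < 1 := by linarith
  have n2 : (-1:ℝ) < n := by linarith
  have n1' : n < 1 := by exact_mod_cast n1
  have n2' : -1 < n := by exact_mod_cast n2
  have n0 : n = 0 := by omega
  rw [n0] at hn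
  simpa using hn

noncomputable def h1 (z : X) : X := ((rep z / 2 : ℝ) : X)
noncomputable def h2 (z : X) : X := ((rep z / 2 + 1/2 : ℝ) : X)

theorem rep_h1 (z : X) : rep (h1 z) = rep z / 2 := by
  obtain ⟨a, b⟩ := rep_mem z
  exact rep_of _ _ (by linarith) (by linarith) rfl

theorem rep_h2 (z : X) : rep (h2 z) = rep z / 2 + 1/2 := by
  obtain ⟨a, b⟩ := rep_mem z
  exact rep_of _ _ (by linarith) (by linarith) rfl

theorem h1_add (z : X) : h1 z + h1 z = z := by
  unfold h1
  rw [← AddCircle.coe_add, add_halves, rep_coe]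

theorem h2_add (z : X) : h2 z + h2 z = z := by
  unfold h2
  rw [← AddCircle.coe_add]
  have : ((rep z / 2 + 1/2 + (rep z / 2 + 1/2) : ℝ) : X) = ((rep z : ℝ) : X) :=
    (coe_eq_iff _ _).2 ⟨1, by push_cast; ring⟩
  rw [this, rep_coe]

theorem h1_inj : Function.Injective h1 := fun a b h => by rw [← h1_add a, ← h1_add b, h]
theorem h2_inj : Function.Injective h2 := fun a b h => by rw [← h2_add a, ← h2_add b, h]

theorem range_compl : IsCompl (Set.range h1) (Set.range h2) := by
  constructor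
  · rw [Set.disjoint_left]
    rintro _ ⟨a, rfl⟩ ⟨b, hb⟩
    have h3 := rep_h1 a
    have h4 := rep_h2 b
    rw [hb, h3] at h4
    have := rep_mem a
    have := rep_mem b
    linarith
  · rw [codisjoint_iff_le_sup]
    intro x _
    show x ∈ Set.range h1 ∪ Set.range h2
    have hr := rep_mem x
    by_cases hx : rep x < 1/2
    · left
      refine ⟨x + x, ?_⟩
      have h3 : rep (x + x) = 2 * rep x := by
        refine rep_of _ _ (by linarith) (by linarith) ?_
        rw [two_mul, AddCircle.coe_add, rep_coe]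
      unfold h1
      rw [h3, mul_div_cancel_left₀ _ two_ne_zero, rep_coe]
    · right
      refine ⟨x + x, ?_⟩
      have h3 : rep (x + x) = 2 * rep x - 1 := by
        refine rep_of _ _ (by linarith) (by linarith) ?_
        have : ((2 * rep x - 1 : ℝ) : X) = ((rep x + rep x : ℝ) : X) :=
          (coe_eq_iff _ _).2 ⟨-1, by push_cast; ring⟩
        rw [this, AddCircle.coe_add, rep_coe]
      unfold h2
      rw [h3, show (2 * rep x - 1) / 2 + 1/2 = rep x by ring, rep_coe]

theorem hasSum_double (F : X → ℝ) (a : ℝ) (h : HasSum F a) : HasSum (fun x => F (x + x)) (a + a) := by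
  refine HasSum.add_isCompl range_compl ?_ ?_
  · have := (h1_inj.hasSum_range_iff (f := fun x => F (x + x)) (a := a)).2 (by
      simpa [Function.comp_def, h1_add] using h)
    exact this
  · have := (h2_inj.hasSum_range_iff (f := fun x => F (x + x)) (a := a)).2 (by
      simpa [Function.comp_def, h2_add] using h)
    exact this

/-- average over `S` -/
noncomputable def P' (S : Finset (Equiv.Perm X)) (f : X → ℝ) (x : X) : ℝ := (∑ s ∈ S, f (s x)) / S.card

/-- lazy average -/
noncomputable def P (S : Finset (Equiv.Perm X)) (f : X → ℝ) (x : X) : ℝ := (f x + P' S f x) / 2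

theorem summable_mul_of_sq {f g : X → ℝ} (hf : Summable fun x => f x ^ 2) (hg : Summable fun x => g x ^ 2) :
    Summable fun x => f x * g x := by
  refine Summable.of_norm_bounded ((hf.add hg).mul_left (1/2)) fun x => ?_
  rw [Real.norm_eq_abs, abs_le]
  constructor <;> nlinarith [sq_nonneg (f x - g x), sq_nonneg (f x + g x)]

theorem summable_perm {f : X → ℝ} (hf : Summable fun x => f x ^ 2) (s : Equiv.Perm X) :
    Summable fun x => f (s x) ^ 2 :=
  (s.summable_iff (f := fun x => f x ^ 2)).2 hf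

theorem tsum_perm (f : X → ℝ) (s : Equiv.Perm X) : ∑' x, f (s x) ^ 2 = ∑' x, f x ^ 2 :=
  s.tsum_eq (fun x => f x ^ 2)

theorem gap (S : Finset (Equiv.Perm X)) (D : Fin 4 → Equiv.Perm X) (hD : ∀ i, D i ∈ S)
    (hdbl : ∀ x : X, ∃ i, D i x = x + x) (f : X → ℝ) (hf : Summable fun x => f x ^ 2) :
    (Summable fun x => P S f x ^ 2) ∧
    ∑' x, P S f x ^ 2 ≤ (1 - 1 / (96 * S.card)) * ∑' x, f x ^ 2 := by
  classical
  set N : ℝ := ∑' x, f x ^ 2 with hN
  have hSne : S.Nonempty := ⟨_, hD 0⟩
  have hcard : (0:ℝ) < S.card := by exact_mod_cast hSne.card_pos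
  -- energies
  have hsm : ∀ s : Equiv.Perm X, Summable fun x => f (s x) * f x := fun s =>
    summable_mul_of_sq (summable_perm hf s) hf
  have hE : ∀ s : Equiv.Perm X, Summable fun x => (f (s x) - f x) ^ 2 := by
    intro s
    have h3 := ((summable_perm hf s).add hf).sub ((hsm s).mul_left 2)
    refine h3.congr fun x => ?_
    ring
  have hEeq : ∀ s : Equiv.Perm X, ∑' x, (f (s x) - f x) ^ 2 = 2 * N - 2 * ∑' x, f (s x) * f x := by
    intro s
    have h3 : ∑' x, (f (s x) - f x) ^ 2 = ∑' x, ((f (s x) ^ 2 + f x ^ 2) - 2 * (f (s x) * f x)) :=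
      tsum_congr fun x => by ring
    rw [h3, Summable.tsum_sub ((summable_perm hf s).add hf) ((hsm s).mul_left 2),
      Summable.tsum_add (summable_perm hf s) hf, tsum_mul_left, tsum_perm]
    rw [← hN]; ring
  have hE0 : ∀ s : Equiv.Perm X, 0 ≤ ∑' x, (f (s x) - f x) ^ 2 := fun s => tsum_nonneg fun x => sq_nonneg _
  -- doubling
  have hd1 : HasSum (fun x => f (x + x) ^ 2) (N + N) := hasSum_double (fun x => f x ^ 2) N hf.hasSum
  have hlow : N / 6 ≤ ∑ i, ∑' x, (f (D i x) - f x) ^ 2 := by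
    rw [← Summable.tsum_finsetSum (fun i _ => hE (D i))]
    have h3 : HasSum (fun x => (1/4) * f (x + x) ^ 2 - (1/3) * f x ^ 2) ((1/4) * (N + N) - (1/3) * N) :=
      (hd1.mul_left _).sub (hf.hasSum.mul_left _)
    have h4 : ∑' x, ((1/4) * f (x + x) ^ 2 - (1/3) * f x ^ 2) ≤ ∑' x, ∑ i, (f (D i x) - f x) ^ 2 := by
      refine Summable.tsum_le_tsum (fun x => ?_) h3.summable (summable_sum fun i _ => hE (D i))
      obtain ⟨i, hi⟩ := hdbl x
      have h5 : (f (D i x) - f x) ^ 2 ≤ ∑ i, (f (D i x) - f x) ^ 2 :=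
        Finset.single_le_sum (f := fun i => (f (D i x) - f x) ^ 2) (fun _ _ => sq_nonneg _) (Finset.mem_univ i)
      rw [hi] at h5
      nlinarith [sq_nonneg (3 * f (x + x) - 4 * f x)]
    rw [h3.tsum_eq] at h4
    linarith
  have hN0 : 0 ≤ N := tsum_nonneg fun x => sq_nonneg _
  have hSE : N / 24 ≤ ∑ s ∈ S, ∑' x, (f (s x) - f x) ^ 2 := by
    have h3 : ∀ i, ∑' x, (f (D i x) - f x) ^ 2 ≤ ∑ s ∈ S, ∑' x, (f (s x) - f x) ^ 2 := fun i =>
      Finset.single_le_sum (f := fun s : Equiv.Perm X => ∑' x, (f (s x) - f x) ^ 2) (fun s _ => hE0 s) (hD i)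
    have h4 : ∑ i, ∑' x, (f (D i x) - f x) ^ 2 ≤ ∑ _i : Fin 4, ∑ s ∈ S, ∑' x, (f (s x) - f x) ^ 2 :=
      Finset.sum_le_sum fun i _ => h3 i
    rw [Finset.sum_const, Finset.card_univ, Fintype.card_fin, nsmul_eq_mul] at h4
    push_cast at h4
    linarith
  -- the inner product
  have hP'sq : Summable fun x => P' S f x ^ 2 := by
    have h3 : Summable fun x => (∑ s ∈ S, f (s x) ^ 2) / S.card :=
      (summable_sum fun s _ => summable_perm hf s).div_const _
    refine Summable.of_nonneg_of_le (fun x => sq_nonneg _) (fun x => ?_) h3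
    unfold P'
    rw [div_pow, div_le_div_iff₀ (by positivity) hcard]
    have := sq_sum_le_card_mul_sum_sq (s := S) (f := fun s => f (s x))
    nlinarith
  have hP'le : ∑' x, P' S f x ^ 2 ≤ N := by
    have h3 : Summable fun x => (∑ s ∈ S, f (s x) ^ 2) / S.card :=
      (summable_sum fun s _ => summable_perm hf s).div_const _
    have h4 : ∑' x, (∑ s ∈ S, f (s x) ^ 2) / S.card = N := by
      rw [tsum_div_const, Summable.tsum_finsetSum (fun s _ => summable_perm hf s)]
      simp only [tsum_perm]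
      rw [Finset.sum_const, nsmul_eq_mul, ← hN]
      field_simp
    rw [← h4]
    refine Summable.tsum_le_tsum (fun x => ?_) hP'sq h3
    unfold P'
    rw [div_pow, div_le_div_iff₀ (by positivity) hcard]
    have := sq_sum_le_card_mul_sum_sq (s := S) (f := fun s => f (s x))
    nlinarith
  have hfP' : Summable fun x => f x * P' S f x := summable_mul_of_sq hf hP'sq
  have hinner : ∑' x, f x * P' S f x ≤ N - N / (48 * S.card) := by
    have h3 : ∑' x, f x * P' S f x = (∑ s ∈ S, ∑' x, f (s x) * f x) / S.card := by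
      rw [← Summable.tsum_finsetSum (fun s _ => hsm s), ← tsum_div_const]
      refine tsum_congr fun x => ?_
      unfold P'
      rw [mul_div_assoc', Finset.mul_sum]
      congr 1
      exact Finset.sum_congr rfl fun s _ => mul_comm _ _
    have h4 : ∑ s ∈ S, ∑' x, f (s x) * f x = S.card * N - (∑ s ∈ S, ∑' x, (f (s x) - f x) ^ 2) / 2 := by
      have h5 : ∀ s ∈ S, ∑' x, f (s x) * f x = N - (∑' x, (f (s x) - f x) ^ 2) / 2 := fun s _ => by
        rw [hEeq s]; ring
      rw [Finset.sum_congr rfl h5, Finset.sum_sub_distrib, Finset.sum_const, nsmul_eq_mul, Finset.sum_div]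
    rw [h3, h4, div_le_iff₀ hcard]
    have h6 : (N - N / (48 * S.card)) * S.card = S.card * N - N / 48 := by
      field_simp
    rw [h6]
    linarith
  have hPsq : ∀ x, P S f x ^ 2 = (f x ^ 2 + 2 * (f x * P' S f x) + P' S f x ^ 2) / 4 := fun x => by
    unfold P; ring
  have hsumm : Summable fun x => (f x ^ 2 + 2 * (f x * P' S f x) + P' S f x ^ 2) / 4 :=
    ((hf.add (hfP'.mul_left 2)).add hP'sq).div_const 4
  refine ⟨hsumm.congr fun x => (hPsq x).symm, ?_⟩
  rw [tsum_congr hPsq, tsum_div_const, Summable.tsum_add (hf.add (hfP'.mul_left 2)) hP'sq,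
    Summable.tsum_add hf (hfP'.mul_left 2), tsum_mul_left]
  rw [← hN]
  have h7 : (1 - 1 / (96 * (S.card : ℝ))) * N = (N + 2 * (N - N / (48 * S.card)) + N) / 4 := by
    field_simp; ring
  rw [h7]
  linarith

end Pool.Agent.Helper889
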