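import Mathlib
import Pool.Agent.Helper889.Gap

set_option autoImplicit false
set_option linter.unusedSectionVars false

namespace Pool.Agent.Helper889

open Filter Topology

section
variable (S : Finset (Equiv.Perm X)) (D : Fin 4 → Equiv.Perm X) (hD : ∀ i, D i ∈ S)
  (hdbl : ∀ x : X, ∃ i, D i x = x + x)

include hD hdbl in
theorem fixed_zero (m : X → ℝ) (hm : Summable fun x => m x ^ 2) (h : ∀ x, P S m x = m x) (x : X) :
    m x = 0 := by
  have hcard : (0:ℝ) < S.card := by exact_mod_cast Finset.card_pos.2 ⟨_, hD 0⟩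
  obtain ⟨_, h2⟩ := gap S D hD hdbl m hm
  simp only [h] at h2
  have hN0 : 0 ≤ ∑' x, m x ^ 2 := tsum_nonneg fun x => sq_nonneg _
  have hc : 0 < 1 / (96 * (S.card : ℝ)) := by positivity
  have hN : ∑' x, m x ^ 2 = 0 := by nlinarith
  have h3 := hm.le_tsum x (fun y _ => sq_nonneg _)
  rw [hN] at h3
  have := sq_nonneg (m x)
  have h4 : m x ^ 2 = 0 := le_antisymm h3 this
  exact pow_eq_zero_iff (two_ne_zero) |>.1 h4

/-- iterates -/
noncomputable def PP (n : ℕ) (f : X → ℝ) : X → ℝ := (P S)^[n] f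

theorem PP_succ (n : ℕ) (f : X → ℝ) : PP S (n+1) f = P S (PP S n f) := by
  unfold PP; rw [Function.iterate_succ_apply']

theorem PP_nonneg (n : ℕ) (f : X → ℝ) (hf : ∀ x, 0 ≤ f x) (x : X) : 0 ≤ PP S n f x := by
  induction n generalizing x with
  | zero => exact hf x
  | succ n ih =>
    rw [PP_succ]
    unfold P P'
    have : 0 ≤ (∑ s ∈ S, PP S n f (s x)) / S.card :=
      div_nonneg (Finset.sum_nonneg fun s _ => ih (s x)) (by positivity)
    have := ih x
    positivity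

theorem PP_support (n : ℕ) (f : X → ℝ) (hf : {x | f x ≠ 0}.Finite) : {x | PP S n f x ≠ 0}.Finite := by
  classical
  induction n with
  | zero => exact hf
  | succ n ih =>
    have h : {x | PP S (n+1) f x ≠ 0} ⊆ {x | PP S n f x ≠ 0} ∪ ⋃ s ∈ S, (fun x => s x) ⁻¹' {x | PP S n f x ≠ 0} := by
      intro x hx
      by_contra hcon
      rw [Set.mem_union, not_or] at hcon
      obtain ⟨c1, c2⟩ := hcon
      simp only [Set.mem_iUnion, not_exists] at c2
      apply hx
      rw [PP_succ]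
      unfold P P'
      have e1 : PP S n f x = 0 := by
        by_contra h; exact c1 h
      have e2 : ∑ s ∈ S, PP S n f (s x) = 0 := by
        refine Finset.sum_eq_zero fun s hs => ?_
        by_contra h; exact c2 s hs h
      rw [e1, e2]; simp
    refine (ih.union ?_).subset h
    exact Set.Finite.biUnion S.finite_toSet fun s _ => ih.preimage (s.injective.injOn)

include hD hdbl in
theorem PP_sq (n : ℕ) (f : X → ℝ) (hf : Summable fun x => f x ^ 2) :
    (Summable fun x => PP S n f x ^ 2) ∧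
    ∑' x, PP S n f x ^ 2 ≤ (1 - 1 / (96 * S.card)) ^ n * ∑' x, f x ^ 2 := by
  have hcard : (1:ℝ) ≤ S.card := by exact_mod_cast Finset.card_pos.2 ⟨_, hD 0⟩
  have hr : 0 ≤ 1 - 1 / (96 * (S.card : ℝ)) := by
    rw [sub_nonneg, div_le_one (by positivity)]; linarith
  induction n with
  | zero => exact ⟨hf, by simp [PP]⟩
  | succ n ih =>
    obtain ⟨i1, i2⟩ := ih
    obtain ⟨g1, g2⟩ := gap S D hD hdbl _ i1
    rw [PP_succ]
    refine ⟨g1, g2.trans ?_⟩
    calc (1 - 1 / (96 * (S.card : ℝ))) * ∑' x, PP S n f x ^ 2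
        ≤ (1 - 1 / (96 * (S.card : ℝ))) * ((1 - 1 / (96 * S.card)) ^ n * ∑' x, f x ^ 2) := by gcongr
      _ = _ := by rw [pow_succ]; ring

include hD hdbl in
theorem PP_bound (f : X → ℝ) (hf : {x | f x ≠ 0}.Finite) (_hf0 : ∀ x, 0 ≤ f x) :
    ∃ (C ρ : ℝ), 0 ≤ C ∧ 0 ≤ ρ ∧ ρ < 1 ∧ ∀ n x, PP S n f x ≤ C * ρ ^ n := by
  have hcard : (1:ℝ) ≤ S.card := by exact_mod_cast Finset.card_pos.2 ⟨_, hD 0⟩
  have hr : 0 ≤ 1 - 1 / (96 * (S.card : ℝ)) := by
    rw [sub_nonneg, div_le_one (by positivity)]; linarith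
  have hr1 : 1 - 1 / (96 * (S.card : ℝ)) < 1 := by
    have : 0 < 1 / (96 * (S.card : ℝ)) := by positivity
    linarith
  have hs : Summable fun x => f x ^ 2 := by
    refine summable_of_hasFiniteSupport (hf.subset fun x hx => ?_)
    intro h0
    apply hx
    show f x ^ 2 = 0
    rw [h0]; simp
  refine ⟨Real.sqrt (∑' x, f x ^ 2), Real.sqrt (1 - 1 / (96 * (S.card : ℝ))), Real.sqrt_nonneg _,
    Real.sqrt_nonneg _, ?_, fun n x => ?_⟩
  · rw [Real.sqrt_lt' one_pos]; simpa using hr1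
  · obtain ⟨i1, i2⟩ := PP_sq S D hD hdbl n f hs
    have h1 := i1.le_tsum x (fun y _ => sq_nonneg _)
    have h2 : PP S n f x ^ 2 ≤ (Real.sqrt (∑' x, f x ^ 2) * Real.sqrt (1 - 1 / (96 * (S.card : ℝ))) ^ n) ^ 2 := by
      rw [mul_pow, Real.sq_sqrt (tsum_nonneg fun x => sq_nonneg _), ← pow_mul, mul_comm n 2, pow_mul, Real.sq_sqrt hr]
      linarith
    exact le_of_sq_le_sq h2 (by positivity)

/-- the operator on states -/
noncomputable def QQ (Ψ : X × ℤ → ℝ) (σ : X × ℤ) : ℝ :=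
  (Ψ σ + (∑ s ∈ S, Ψ (s σ.1, σ.2 + J s σ.1)) / S.card) / 2

open Classical in
/-- where some generator has a jump -/
noncomputable def Lind (x : X) : ℝ := if ∃ s ∈ S, J s x ≠ 0 then 1 else 0

/-- indicator of level zero -/
noncomputable def chi (σ : X × ℤ) : ℝ := if σ.2 = 0 then 1 else 0

theorem Lind_nonneg (x : X) : 0 ≤ Lind S x := by unfold Lind; split_ifs <;> simp

theorem Lind_finite (hS : ∀ s ∈ S, s ∈ TT) : {x | Lind S x ≠ 0}.Finite := by
  have : {x | Lind S x ≠ 0} ⊆ ⋃ s ∈ S, {x | J s x ≠ 0} := by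
    intro x hx
    by_contra hcon
    simp only [Set.mem_iUnion, not_exists] at hcon
    apply hx
    unfold Lind
    rw [if_neg]
    rintro ⟨s, hs, hj⟩
    exact hcon s hs hj
  exact (Set.Finite.biUnion S.finite_toSet fun s hs => J_finite (hS s hs)).subset this

theorem QQ_mono {Ψ Φ : X × ℤ → ℝ} (h : ∀ σ, Ψ σ ≤ Φ σ) (σ : X × ℤ) : QQ S Ψ σ ≤ QQ S Φ σ := by
  unfold QQ
  have h1 : (∑ s ∈ S, Ψ (s σ.1, σ.2 + J s σ.1)) / (S.card : ℝ) ≤ (∑ s ∈ S, Φ (s σ.1, σ.2 + J s σ.1)) / S.card := by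
    gcongr with s _
    exact h _
  have := h σ
  linarith

include hD in
theorem QQ_const (c : ℝ) (σ : X × ℤ) : QQ S (fun _ => c) σ = c := by
  have hcard : (0:ℝ) < S.card := by exact_mod_cast Finset.card_pos.2 ⟨_, hD 0⟩
  unfold QQ
  rw [Finset.sum_const, nsmul_eq_mul]
  field_simp
  ring

theorem QQ_sub (Ψ Φ : X × ℤ → ℝ) (σ : X × ℤ) : QQ S (fun τ => Ψ τ - Φ τ) σ = QQ S Ψ σ - QQ S Φ σ := by
  unfold QQ
  rw [Finset.sum_sub_distrib, sub_div]
  ring

theorem QQ_abs (Ψ : X × ℤ → ℝ) (σ : X × ℤ) : |QQ S Ψ σ| ≤ QQ S (fun τ => |Ψ τ|) σ := by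
  rw [abs_le]
  constructor
  · have h := QQ_mono S (Ψ := fun τ => - |Ψ τ|) (Φ := Ψ) (fun τ => neg_abs_le _) σ
    have h2 : QQ S (fun τ => - |Ψ τ|) σ = - QQ S (fun τ => |Ψ τ|) σ := by
      unfold QQ
      rw [Finset.sum_neg_distrib]; ring
    rw [h2] at h
    exact h
  · exact QQ_mono S (fun τ => le_abs_self _) σ

theorem QQ_fst (f : X → ℝ) (σ : X × ℤ) : QQ S (fun τ => f τ.1) σ = P S f σ.1 := rfl

include hD in
theorem chi_diff (σ : X × ℤ) : |QQ S chi σ - chi σ| ≤ Lind S σ.1 := by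
  classical
  by_cases h : ∃ s ∈ S, J s σ.1 ≠ 0
  · have e1 : Lind S σ.1 = 1 := by unfold Lind; rw [if_pos h]
    rw [e1]
    obtain ⟨s₁, hs₁, _⟩ := h
    have hcard : (0:ℝ) < S.card := by exact_mod_cast Finset.card_pos.2 ⟨_, hs₁⟩
    have c0 : ∀ τ, 0 ≤ chi τ := fun τ => by unfold chi; split_ifs <;> simp
    have c1 : ∀ τ, chi τ ≤ 1 := fun τ => by unfold chi; split_ifs <;> simp
    have h1 : 0 ≤ (∑ s ∈ S, chi (s σ.1, σ.2 + J s σ.1)) / (S.card : ℝ) :=
      div_nonneg (Finset.sum_nonneg fun s _ => c0 _) hcard.le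
    have h2 : (∑ s ∈ S, chi (s σ.1, σ.2 + J s σ.1)) / (S.card : ℝ) ≤ 1 := by
      rw [div_le_one hcard]
      calc ∑ s ∈ S, chi (s σ.1, σ.2 + J s σ.1) ≤ ∑ s ∈ S, (1:ℝ) := Finset.sum_le_sum fun s _ => c1 _
        _ = S.card := by simp
    unfold QQ
    have := c0 σ
    have := c1 σ
    rw [abs_le]
    constructor <;> linarith
  · have e1 : Lind S σ.1 = 0 := by unfold Lind; rw [if_neg h]
    rw [e1]
    push Not at h
    have h1 : ∑ s ∈ S, chi (s σ.1, σ.2 + J s σ.1) = S.card * chi σ := by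
      rw [← nsmul_eq_mul, ← Finset.sum_const]
      refine Finset.sum_congr rfl fun s hs => ?_
      unfold chi
      rw [h s hs, add_zero]
    unfold QQ
    rw [h1]
    have : (0:ℝ) < S.card := by exact_mod_cast Finset.card_pos.2 ⟨_, hD 0⟩
    have h3 : (chi σ + S.card * chi σ / S.card) / 2 - chi σ = 0 := by field_simp; ring
    rw [h3]; simp

/-- iterates of `QQ` on `chi` -/
noncomputable def Qn (n : ℕ) : X × ℤ → ℝ := (QQ S)^[n] chi

theorem Qn_succ (n : ℕ) : Qn S (n+1) = QQ S (Qn S n) := by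
  unfold Qn; rw [Function.iterate_succ_apply']

include hD in
theorem Qn_step (n : ℕ) (σ : X × ℤ) : dist (Qn S n σ) (Qn S (n+1) σ) ≤ PP S n (Lind S) σ.1 := by
  induction n generalizing σ with
  | zero =>
    rw [Real.dist_eq, abs_sub_comm]
    exact chi_diff S D hD σ
  | succ n ih =>
    rw [Qn_succ S (n+1), Qn_succ S n, PP_succ, Real.dist_eq, ← QQ_sub]
    refine (QQ_abs S _ σ).trans ?_
    rw [← QQ_fst]
    refine QQ_mono S (fun τ => ?_) σ
    have := ih τ
    rw [Real.dist_eq, Qn_succ] at this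
    exact this

theorem Y_infinite : Y.Infinite := by
  refine Set.infinite_of_injective_forall_mem (f := fun n : ℕ => (((1:ℝ) / 2 ^ (n+1) : ℝ) : X)) ?_ ?_
  · intro a b h
    obtain ⟨n, hn⟩ := (coe_eq_iff _ _).1 h
    have pa : (0:ℝ) < 1 / 2 ^ (a+1) := by positivity
    have pb : (0:ℝ) < 1 / 2 ^ (b+1) := by positivity
    have qa : (1:ℝ) / 2 ^ (a+1) < 1 := by
      rw [div_lt_one (by positivity)]; exact one_lt_pow₀ (by norm_num) (by omega)
    have qb : (1:ℝ) / 2 ^ (b+1) < 1 := by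
      rw [div_lt_one (by positivity)]; exact one_lt_pow₀ (by norm_num) (by omega)
    have n1 : (n:ℝ) < 1 := by linarith
    have n2 : (-1:ℝ) < n := by linarith
    have n1' : n < 1 := by exact_mod_cast n1
    have n2' : -1 < n := by exact_mod_cast n2
    have n0 : n = 0 := by omega
    rw [n0] at hn
    simp only [Int.cast_zero, add_zero, one_div, inv_inj] at hn
    have := pow_right_injective₀ (by norm_num : (0:ℝ) < 2) (by norm_num) hn
    omega
  · intro n
    exact ⟨_, ⟨1, n+1, by push_cast; rfl⟩, rfl⟩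

include hD hdbl in
/-- the limiting function on states -/
theorem exists_Psi (hS : ∀ s ∈ S, s ∈ TT) : ∃ Ψ : X × ℤ → ℝ, (∀ σ, 0 ≤ Ψ σ) ∧ (∀ σ, Ψ σ ≤ 1) ∧
    (∀ σ, QQ S Ψ σ = Ψ σ) ∧ ∃ y ∈ Y, Ψ (y, 0) ≠ Ψ (y, 1) := by
  obtain ⟨C, ρ, hC, hρ0, hρ1, hb⟩ := PP_bound S D hD hdbl (Lind S) (Lind_finite S hS) (Lind_nonneg S)
  have hgeo : Summable fun n : ℕ => C * ρ ^ n := (summable_geometric_of_lt_one hρ0 hρ1).mul_left C
  have hsum : ∀ x, Summable fun n => PP S n (Lind S) x := fun x =>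
    Summable.of_nonneg_of_le (fun n => PP_nonneg S n _ (Lind_nonneg S) x) (fun n => hb n x) hgeo
  have hc : ∀ σ, ∃ a, Tendsto (fun n => Qn S n σ) atTop (𝓝 a) := fun σ =>
    cauchySeq_tendsto_of_complete (cauchySeq_of_dist_le_of_summable _ (fun n => Qn_step S D hD n σ) (hsum σ.1))
  choose Ψ hΨ using hc
  have c0 : ∀ τ, 0 ≤ chi τ := fun τ => by unfold chi; split_ifs <;> simp
  have c1 : ∀ τ, chi τ ≤ 1 := fun τ => by unfold chi; split_ifs <;> simp
  have q0 : ∀ n σ, 0 ≤ Qn S n σ := by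
    intro n
    induction n with
    | zero => exact c0
    | succ n ih =>
      intro σ
      rw [Qn_succ]
      have := QQ_mono S (Ψ := fun _ => 0) ih σ
      rwa [QQ_const S D hD] at this
  have q1 : ∀ n σ, Qn S n σ ≤ 1 := by
    intro n
    induction n with
    | zero => exact c1
    | succ n ih =>
      intro σ
      rw [Qn_succ]
      have := QQ_mono S (Φ := fun _ => 1) ih σ
      rwa [QQ_const S D hD] at this
  have hdist : ∀ σ, |chi σ - Ψ σ| ≤ ∑' n, PP S n (Lind S) σ.1 := by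
    intro σ
    have := dist_le_tsum_of_dist_le_of_tendsto₀ _ (fun n => Qn_step S D hD n σ) (hsum σ.1) (hΨ σ)
    rw [Real.dist_eq] at this
    exact this
  refine ⟨Ψ, fun σ => ge_of_tendsto' (hΨ σ) fun n => q0 n σ, fun σ => le_of_tendsto' (hΨ σ) fun n => q1 n σ,
    fun σ => ?_, ?_⟩
  · have t1 : Tendsto (fun n => Qn S (n+1) σ) atTop (𝓝 (Ψ σ)) := (tendsto_add_atTop_iff_nat 1).2 (hΨ σ)
    have t2 : Tendsto (fun n => Qn S (n+1) σ) atTop (𝓝 (QQ S Ψ σ)) := by
      simp only [Qn_succ]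
      unfold QQ
      exact ((hΨ σ).add ((tendsto_finsetSum _ fun s _ => hΨ _).div_const _)).div_const _
    exact tendsto_nhds_unique t2 t1
  · -- choose a point where the tail is small
    have htail : Tendsto (fun n => ∑' k, C * ρ ^ (k + n)) atTop (𝓝 0) := tendsto_sum_nat_add (fun n => C * ρ ^ n)
    obtain ⟨n₀, hn₀⟩ := (htail.eventually (gt_mem_nhds (show (0:ℝ) < 1/2 by norm_num))).exists
    have hfin : (⋃ n ∈ Finset.range n₀, {x | PP S n (Lind S) x ≠ 0}).Finite :=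
      Set.Finite.biUnion (Finset.range n₀).finite_toSet fun n _ => PP_support S n _ (Lind_finite S hS)
    obtain ⟨y, hy, hyn⟩ := Y_infinite.exists_notMem_finite hfin
    simp only [Set.mem_iUnion, not_exists] at hyn
    have hU : ∑' n, PP S n (Lind S) y < 1/2 := by
      rw [← (hsum y).sum_add_tsum_nat_add n₀]
      have e1 : ∑ i ∈ Finset.range n₀, PP S i (Lind S) y = 0 := by
        refine Finset.sum_eq_zero fun i hi => ?_
        by_contra h
        exact hyn i hi h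
      rw [e1, zero_add]
      refine lt_of_le_of_lt ?_ hn₀
      exact Summable.tsum_le_tsum (fun k => hb (k + n₀) y) ((summable_nat_add_iff n₀).2 (hsum y))
        ((summable_nat_add_iff n₀).2 hgeo)
    refine ⟨y, hy, ?_⟩
    have d0 := hdist (y, 0)
    have d1 := hdist (y, 1)
    unfold chi at d0 d1
    simp only [if_true, one_ne_zero, if_false] at d0 d1
    rw [abs_le] at d0 d1
    intro hcon
    linarith [d0.1, d0.2, d1.1, d1.2]

end

end Pool.Agent.Helper889
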