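import Mathlib
import Pool.Agent.Helper889.Cocycle

set_option autoImplicit false
set_option linter.unusedSectionVars false

namespace Pool.Agent.Helper889

open MeasureTheory Filter Topology BoundedContinuousFunction

theorem cont_Tset {f : Equiv.Perm X} (hf : f ∈ Tset) : Continuous f := by
  obtain ⟨F, hF1, _, _, hF4, _⟩ := hf
  have hq : Topology.IsQuotientMap (QuotientAddGroup.mk : ℝ → X) := isQuotientMap_quotient_mk'
  rw [hq.continuous_iff]
  have : (f ∘ (QuotientAddGroup.mk : ℝ → X)) = (QuotientAddGroup.mk : ℝ → X) ∘ F := by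
    funext x
    exact hF4 x
  rw [this]
  exact hq.continuous.comp hF1

theorem cont_inv {f : Equiv.Perm X} (hf : Continuous f) : Continuous (f⁻¹ : Equiv.Perm X) :=
  (Continuous.continuous_symm_of_equiv_compact_to_t2 (f := f) hf)

theorem cont_TT {g : Equiv.Perm X} (hg : g ∈ TT) : Continuous g := by
  induction hg using Subgroup.closure_induction with
  | mem f hf => exact cont_Tset hf
  | one => exact continuous_id
  | mul g h _ _ ihg ihh => exact ihg.comp ihh
  | inv g _ ih => exact cont_inv ih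

section
variable (S : Finset (Equiv.Perm X)) (hne : S.Nonempty) (hS : ∀ s ∈ S, s ∈ TT)

/-- one step of the walk on measures -/
noncomputable def push (ν : Measure X) : Measure X :=
  (S.card : ENNReal)⁻¹ • ∑ s ∈ S, ν.map s

include hne hS in
theorem push_prob (ν : Measure X) [IsProbabilityMeasure ν] : IsProbabilityMeasure (push S ν) := by
  constructor
  unfold push
  rw [Measure.smul_apply, Measure.finsetSum_apply]
  have h1 : ∀ s ∈ S, (ν.map s) Set.univ = 1 := by
    intro s hs
    rw [Measure.map_apply (cont_TT (hS s hs)).measurable MeasurableSet.univ]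
    simp
  rw [Finset.sum_congr rfl h1, Finset.sum_const, nsmul_eq_mul, mul_one, smul_eq_mul]
  refine ENNReal.inv_mul_cancel ?_ (ENNReal.natCast_ne_top _)
  simpa using hne.ne_empty

include hne hS in
theorem integral_push (ν : Measure X) [IsProbabilityMeasure ν] (f : X →ᵇ ℝ) :
    ∫ x, f x ∂(push S ν) = (S.card : ℝ)⁻¹ * ∑ s ∈ S, ∫ x, f (s x) ∂ν := by
  unfold push
  rw [integral_smul_measure, integral_finsetSum_measure]
  · rw [ENNReal.toReal_inv, ENNReal.toReal_natCast, smul_eq_mul]
    congr 1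
    refine Finset.sum_congr rfl fun s hs => ?_
    rw [integral_map (cont_TT (hS s hs)).measurable.aemeasurable f.continuous.aestronglyMeasurable]
  · intro s hs
    haveI : IsFiniteMeasure (ν.map s) := Measure.isFiniteMeasure_map ν s
    exact f.integrable _

/-- iterates of the point mass -/
noncomputable def mm : ℕ → Measure X
  | 0 => Measure.dirac 0
  | (n+1) => push S (mm n)

include hne hS in
theorem mm_prob (n : ℕ) : IsProbabilityMeasure (mm S n) := by
  induction n with
  | zero => unfold mm; infer_instance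
  | succ n ih =>
    unfold mm
    exact push_prob S hne hS (mm S n)

/-- Cesàro averages -/
noncomputable def ces (n : ℕ) : Measure X := ((n + 1 : ℕ) : ENNReal)⁻¹ • ∑ k ∈ Finset.range (n+1), mm S k

include hne hS in
theorem ces_prob (n : ℕ) : IsProbabilityMeasure (ces S n) := by
  constructor
  unfold ces
  rw [Measure.smul_apply, Measure.finsetSum_apply]
  have h1 : ∀ k ∈ Finset.range (n+1), (mm S k) Set.univ = 1 := by
    intro k _
    haveI := mm_prob S hne hS k
    exact measure_univ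
  rw [Finset.sum_congr rfl h1, Finset.sum_const, nsmul_eq_mul, mul_one, smul_eq_mul, Finset.card_range]
  refine ENNReal.inv_mul_cancel ?_ (ENNReal.natCast_ne_top _)
  simp

include hne hS in
theorem integral_ces (n : ℕ) (f : X →ᵇ ℝ) :
    ∫ x, f x ∂(ces S n) = ((n:ℝ) + 1)⁻¹ * ∑ k ∈ Finset.range (n+1), ∫ x, f x ∂(mm S k) := by
  unfold ces
  rw [integral_smul_measure, integral_finsetSum_measure]
  · rw [ENNReal.toReal_inv, ENNReal.toReal_natCast, smul_eq_mul]
    push_cast; rfl
  · intro k _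
    haveI := mm_prob S hne hS k
    exact f.integrable _

include hne hS in
theorem exists_stationary : ∃ ν : Measure X, IsProbabilityMeasure ν ∧ push S ν = ν := by
  classical
  set νs : ℕ → ProbabilityMeasure X := fun n => ⟨ces S n, ces_prob S hne hS n⟩ with hνs
  set U : Ultrafilter ℕ := Ultrafilter.of atTop with hU
  have hUle : (U : Filter ℕ) ≤ atTop := Ultrafilter.of_le atTop
  obtain ⟨ν, -, hν⟩ := isCompact_univ.ultrafilter_le_nhds (U.map νs) (by simp)
  have hν' : Tendsto νs U (𝓝 ν) := hν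
  rw [ProbabilityMeasure.tendsto_iff_forall_integral_tendsto] at hν'
  refine ⟨(ν : Measure X), inferInstance, ?_⟩
  haveI := push_prob S hne hS (ν : Measure X)
  refine ext_of_forall_integral_eq_of_IsFiniteMeasure fun f => ?_
  -- composition with elements of S
  have hcomp : ∀ s ∈ S, ∃ g : X →ᵇ ℝ, ∀ x, g x = f (s x) := fun s hs =>
    ⟨f.compContinuous ⟨s, cont_TT (hS s hs)⟩, fun x => rfl⟩
  have hlim1 : Tendsto (fun n => ∫ x, f x ∂(ces S n)) U (𝓝 (∫ x, f x ∂(ν : Measure X))) := hν' f
  have hlim2 : Tendsto (fun n => (S.card : ℝ)⁻¹ * ∑ s ∈ S, ∫ x, f (s x) ∂(ces S n)) U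
      (𝓝 ((S.card : ℝ)⁻¹ * ∑ s ∈ S, ∫ x, f (s x) ∂(ν : Measure X))) := by
    refine Tendsto.const_mul _ (tendsto_finsetSum _ fun s hs => ?_)
    obtain ⟨g, hg⟩ := hcomp s hs
    have := hν' g
    simp only [hg] at this
    exact this
  -- the difference tends to zero
  have hdiff : ∀ n, (S.card : ℝ)⁻¹ * ∑ s ∈ S, ∫ x, f (s x) ∂(ces S n) - ∫ x, f x ∂(ces S n)
      = ((n:ℝ) + 1)⁻¹ * (∫ x, f x ∂(mm S (n+1)) - ∫ x, f x ∂(mm S 0)) := by
    intro n
    have e1 : (S.card : ℝ)⁻¹ * ∑ s ∈ S, ∫ x, f (s x) ∂(ces S n)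
        = ((n:ℝ) + 1)⁻¹ * ∑ k ∈ Finset.range (n+1), ∫ x, f x ∂(mm S (k+1)) := by
      have e2 : ∀ s ∈ S, ∫ x, f (s x) ∂(ces S n)
          = ((n:ℝ) + 1)⁻¹ * ∑ k ∈ Finset.range (n+1), ∫ x, f (s x) ∂(mm S k) := by
        intro s hs
        obtain ⟨g, hg⟩ := hcomp s hs
        have := integral_ces S hne hS n g
        simp only [hg] at this
        exact this
      rw [Finset.sum_congr rfl e2, ← Finset.mul_sum, Finset.sum_comm, mul_left_comm]
      congr 1
      rw [Finset.mul_sum]
      refine Finset.sum_congr rfl fun k _ => ?_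
      haveI := mm_prob S hne hS k
      rw [← integral_push S hne hS (mm S k) f]
      rfl
    rw [e1, integral_ces S hne hS n f, ← mul_sub]
    congr 1
    rw [Finset.sum_range_succ (fun k => ∫ x, f x ∂(mm S (k+1))), Finset.sum_range_succ' (fun k => ∫ x, f x ∂(mm S k))]
    ring
  have hbound : ∀ k, |∫ x, f x ∂(mm S k)| ≤ ‖f‖ := by
    intro k
    haveI := mm_prob S hne hS k
    rw [← Real.norm_eq_abs]
    refine (norm_integral_le_of_norm_le_const (C := ‖f‖) (Eventually.of_forall fun x => f.norm_coe_le_norm x)).trans ?_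
    simp
  have hzero : Tendsto (fun n : ℕ => ((n:ℝ) + 1)⁻¹ * (∫ x, f x ∂(mm S (n+1)) - ∫ x, f x ∂(mm S 0))) U (𝓝 0) := by
    refine Tendsto.mono_left ?_ hUle
    have h1 : Tendsto (fun n : ℕ => ((n:ℝ) + 1)⁻¹ * (2 * ‖f‖)) atTop (𝓝 (0 * (2 * ‖f‖))) :=
      (tendsto_inv_atTop_zero.comp (tendsto_natCast_atTop_atTop.atTop_add tendsto_const_nhds)).mul_const _
    rw [zero_mul] at h1
    refine squeeze_zero_norm (fun n => ?_) h1
    rw [norm_mul, Real.norm_of_nonneg (by positivity : (0:ℝ) ≤ ((n:ℝ) + 1)⁻¹)]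
    gcongr
    rw [Real.norm_eq_abs]
    calc |∫ x, f x ∂(mm S (n+1)) - ∫ x, f x ∂(mm S 0)| ≤ |∫ x, f x ∂(mm S (n+1))| + |∫ x, f x ∂(mm S 0)| := abs_sub _ _
      _ ≤ 2 * ‖f‖ := by linarith [hbound (n+1), hbound 0]
  have hlim3 := hlim2.sub hlim1
  simp only [hdiff] at hlim3
  have heq := tendsto_nhds_unique hlim3 hzero
  rw [integral_push S hne hS]
  linarith

end

end Pool.Agent.Helper889
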