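import Mathlib
import Pool.Agent.Helper889.Moves
import Pool.Agent.Helper889.Limit
import Pool.Agent.Helper889.Stationary

set_option autoImplicit false
set_option linter.unusedSectionVars false

namespace Pool.Agent.Helper889

open MeasureTheory Filter

/-- action on states -/
noncomputable def act (g : Equiv.Perm X) (σ : X × ℤ) : X × ℤ := (g σ.1, σ.2 + J g σ.1)

theorem act_mul {g h : Equiv.Perm X} (hg : g ∈ TT) (hh : h ∈ TT) (σ : X × ℤ) :
    act (g * h) σ = act g (act h σ) := by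
  unfold act
  rw [J_mul hg hh, Equiv.Perm.mul_apply]
  ext
  · rfl
  · simp only; ring

theorem act_one (σ : X × ℤ) : act 1 σ = σ := by
  unfold act; rw [J_one]; simp

theorem act_inv_act {g : Equiv.Perm X} (hg : g ∈ TT) (σ : X × ℤ) : act g⁻¹ (act g σ) = σ := by
  rw [← act_mul (inv_mem hg) hg, inv_mul_cancel, act_one]

/-- a finite symmetric generating set containing the doubling moves -/
theorem exists_S : ∃ (S : Finset TT) (D : Fin 4 → Equiv.Perm X),
    (∀ s ∈ S, s⁻¹ ∈ S) ∧ Subgroup.closure (S : Set TT) = ⊤ ∧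
    (∀ i, D i ∈ S.map ⟨Subtype.val, Subtype.val_injective⟩) ∧ ∀ x : X, ∃ i, D i x = x + x := by
  classical
  obtain ⟨D, hD, hdbl⟩ := doubling
  have hfin : ((Subtype.val : TT → Equiv.Perm X) ⁻¹' (gens ∪ Set.range D)).Finite :=
    (gens_finite.union (Set.finite_range D)).preimage Subtype.val_injective.injOn
  set A := hfin.toFinset with hA
  have memA : ∀ g : TT, g ∈ A ↔ ((g : Equiv.Perm X) ∈ gens ∨ (g : Equiv.Perm X) ∈ Set.range D) := by
    intro g; rw [hA, Set.Finite.mem_toFinset]; rfl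
  refine ⟨A ∪ A.image (fun g => g⁻¹), D, ?_, ?_, ?_, hdbl⟩
  · intro s hs
    rw [Finset.mem_union, Finset.mem_image] at hs ⊢
    rcases hs with h | ⟨a, ha, rfl⟩
    · right; exact ⟨s, h, rfl⟩
    · left; rwa [inv_inv]
  · rw [eq_top_iff]
    rintro ⟨g, hg⟩ -
    have hg' : g ∈ Subgroup.closure gens := by rw [← closure_eq]; exact hg
    have key : ∀ g, g ∈ Subgroup.closure gens → ∃ hg : g ∈ TT,
        (⟨g, hg⟩ : TT) ∈ Subgroup.closure (((A ∪ A.image (fun g => g⁻¹) : Finset TT)) : Set TT) := by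
      intro g hg
      induction hg using Subgroup.closure_induction with
      | mem f hf =>
        have : f ∈ TT := Subgroup.subset_closure (gens_sub hf)
        refine ⟨this, Subgroup.subset_closure ?_⟩
        rw [Finset.mem_coe, Finset.mem_union]
        left
        rw [memA]; left; exact hf
      | one => exact ⟨one_mem _, one_mem _⟩
      | mul g h _ _ ihg ihh =>
        obtain ⟨h1, h2⟩ := ihg
        obtain ⟨h3, h4⟩ := ihh
        exact ⟨mul_mem h1 h3, mul_mem h2 h4⟩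
      | inv g _ ih =>
        obtain ⟨h1, h2⟩ := ih
        exact ⟨inv_mem h1, inv_mem h2⟩
    exact (key g hg').2
  · intro i
    rw [Finset.mem_map]
    refine ⟨⟨D i, hD i⟩, ?_, rfl⟩
    rw [Finset.mem_union]
    left
    rw [memA]; right; exact ⟨i, rfl⟩

open Classical in
/-- lazy uniform measure -/
noncomputable def muS (S : Finset TT) : TT →₀ ℝ :=
  Finsupp.onFinset (insert 1 S) (fun g => (if g = 1 then 1/2 else 0) + (if g ∈ S then 1 / (2 * (S.card : ℝ)) else 0))
    (by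
      intro g hg
      rw [Finset.mem_insert]
      by_contra hcon
      rw [not_or] at hcon
      apply hg
      rw [if_neg hcon.1, if_neg hcon.2, add_zero])

open Classical in
theorem muS_apply (S : Finset TT) (g : TT) :
    muS S g = (if g = 1 then 1/2 else 0) + (if g ∈ S then 1 / (2 * (S.card : ℝ)) else 0) := rfl

theorem muS_sum (S : Finset TT) (F : TT → ℝ) :
    ∑ g ∈ (muS S).support, muS S g * F g = (F 1 + (∑ g ∈ S, F g) / S.card) / 2 := by
  classical
  have hsub : (muS S).support ⊆ insert 1 S := by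
    intro g hg
    rw [Finsupp.mem_support_iff, muS_apply] at hg
    rw [Finset.mem_insert]
    by_contra hcon
    rw [not_or] at hcon
    apply hg
    rw [if_neg hcon.1, if_neg hcon.2, add_zero]
  rw [Finset.sum_subset hsub (fun g _ hg => by
    rw [Finsupp.notMem_support_iff.1 hg, zero_mul])]
  simp only [muS_apply, add_mul, Finset.sum_add_distrib]
  have e1 : ∑ g ∈ insert 1 S, (if g = 1 then (1/2:ℝ) else 0) * F g = F 1 / 2 := by
    rw [Finset.sum_eq_single (1 : TT)]
    · rw [if_pos rfl]; ring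
    · intro b _ hb; rw [if_neg hb, zero_mul]
    · intro h; exact absurd (Finset.mem_insert_self _ _) h
  have e2 : ∑ g ∈ insert 1 S, (if g ∈ S then 1 / (2 * (S.card : ℝ)) else 0) * F g
      = (∑ g ∈ S, F g) / S.card / 2 := by
    have : ∑ g ∈ insert 1 S, (if g ∈ S then 1 / (2 * (S.card : ℝ)) else 0) * F g
        = ∑ g ∈ S, (if g ∈ S then 1 / (2 * (S.card : ℝ)) else 0) * F g := by
      symm
      refine Finset.sum_subset (Finset.subset_insert _ _) fun g _ hg => ?_
      rw [if_neg hg, zero_mul]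
    rw [this]
    have e3 : ∀ g ∈ S, (if g ∈ S then 1 / (2 * (S.card : ℝ)) else 0) * F g = F g * (1 / (2 * (S.card : ℝ))) := by
      intro g hg; rw [if_pos hg, mul_comm]
    rw [Finset.sum_congr rfl e3, ← Finset.sum_mul]
    field_simp
  rw [e1, e2]; ring

theorem TT_countable : Countable TT := by
  obtain ⟨S, D, h1, h2, h3, h4⟩ := exists_S
  set v : {x : TT // x ∈ S} → TT := fun x => x.1 with hv
  have hsub : (Set.univ : Set TT) ⊆ Set.range (fun l : List {x : TT // x ∈ S} => (l.map v).prod) := by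
    intro g _
    have hg : g ∈ Subgroup.closure (S : Set TT) := by rw [h2]; trivial
    induction hg using Subgroup.closure_induction with
    | mem f hf => exact ⟨[⟨f, hf⟩], by simp [hv]⟩
    | one => exact ⟨[], by simp⟩
    | mul g h _ _ ihg ihh =>
      obtain ⟨l, hl⟩ := ihg (Set.mem_univ _)
      obtain ⟨l', hl'⟩ := ihh (Set.mem_univ _)
      refine ⟨l ++ l', ?_⟩
      simp only at hl hl' ⊢
      rw [List.map_append, List.prod_append, hl, hl']
    | inv g _ ih =>
      obtain ⟨l, hl⟩ := ih (Set.mem_univ _)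
      refine ⟨(l.map (fun s : {x : TT // x ∈ S} => (⟨s.1⁻¹, h1 s.1 s.2⟩ : {x : TT // x ∈ S}))).reverse, ?_⟩
      simp only at hl ⊢
      rw [← hl, List.map_reverse, List.map_map, List.prod_inv_reverse, List.map_map]
      rfl
  exact Set.countable_univ_iff.1 ((Set.countable_range _).mono hsub)

section
variable (S : Finset TT) (D : Fin 4 → Equiv.Perm X) (hsym : ∀ s ∈ S, s⁻¹ ∈ S)
  (hD : ∀ i, D i ∈ S.map ⟨Subtype.val, Subtype.val_injective⟩) (hdbl : ∀ x : X, ∃ i, D i x = x + x)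

/-- the underlying set of permutations -/
abbrev SP (S : Finset TT) : Finset (Equiv.Perm X) := S.map ⟨Subtype.val, Subtype.val_injective⟩

theorem SP_mem (s : Equiv.Perm X) (hs : s ∈ SP S) : s ∈ TT := by
  rw [Finset.mem_map] at hs
  obtain ⟨a, _, rfl⟩ := hs
  exact a.2

include hsym in
theorem sum_inv {M : Type} [AddCommMonoid M] (F : TT → M) : ∑ s ∈ S, F s⁻¹ = ∑ s ∈ S, F s := by
  refine Finset.sum_nbij' (fun s => s⁻¹) (fun s => s⁻¹) hsym hsym (fun a _ => inv_inv a) (fun a _ => inv_inv a) (fun a _ => rfl)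

theorem stat_apply (hne : S.Nonempty) (ν : Measure X) (hν : push (SP S) ν = ν) (A : Set X) (hA : MeasurableSet A) :
    ν A = (S.card : ENNReal)⁻¹ * ∑ s ∈ S, ν ((fun x => (s : Equiv.Perm X) x) ⁻¹' A) := by
  conv_lhs => rw [← hν]
  unfold push
  rw [Measure.smul_apply, Measure.finsetSum_apply, smul_eq_mul, Finset.card_map, Finset.sum_map]
  congr 1
  refine Finset.sum_congr rfl fun s _ => ?_
  exact Measure.map_apply (cont_TT s.2).measurable hA

theorem stat_real (hne : S.Nonempty) (ν : Measure X) [IsProbabilityMeasure ν] (hν : push (SP S) ν = ν) (A : Set X)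
    (hA : MeasurableSet A) :
    (ν A).toReal = (∑ s ∈ S, (ν ((fun x => (s : Equiv.Perm X) x) ⁻¹' A)).toReal) / S.card := by
  rw [stat_apply S hne ν hν A hA, ENNReal.toReal_mul, ENNReal.toReal_inv, ENNReal.toReal_natCast,
    ENNReal.toReal_sum (fun s _ => measure_ne_top _ _)]
  field_simp

include hsym hD hdbl in
theorem no_atoms (ν : Measure X) [IsProbabilityMeasure ν] (hν : push (SP S) ν = ν) (x : X) : ν {x} = 0 := by
  have hne : S.Nonempty := by
    have := hD 0
    rw [Finset.mem_map] at this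
    obtain ⟨a, ha, _⟩ := this
    exact ⟨a, ha⟩
  set m : X → ℝ := fun x => (ν {x}).toReal with hm
  have hm0 : ∀ x, 0 ≤ m x := fun x => ENNReal.toReal_nonneg
  have hm1 : ∀ x, m x ≤ 1 := fun x => by
    have := ENNReal.toReal_mono ENNReal.one_ne_top (prob_le_one (μ := ν) (s := {x}))
    simpa using this
  have hsum : Summable m := by
    refine summable_of_sum_le hm0 (c := 1) fun u => ?_
    have h1 : ∑ x ∈ u, m x = (ν (u : Set X)).toReal := by
      rw [← sum_measure_singleton, ENNReal.toReal_sum (fun s _ => measure_ne_top _ _)]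
    rw [h1]
    have := ENNReal.toReal_mono ENNReal.one_ne_top (prob_le_one (μ := ν) (s := (u : Set X)))
    simpa using this
  have hsq : Summable fun x => m x ^ 2 := by
    refine Summable.of_nonneg_of_le (fun x => sq_nonneg _) (fun x => ?_) hsum
    nlinarith [hm0 x, hm1 x]
  have hP : ∀ x, P (SP S) m x = m x := by
    intro x
    have h1 := stat_real S hne ν hν {x} (measurableSet_singleton x)
    have h2 : P' (SP S) m x = m x := by
      unfold P'
      rw [Finset.card_map, Finset.sum_map]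
      have h3 : ∀ s ∈ S, m ((⟨Subtype.val, Subtype.val_injective⟩ : TT ↪ Equiv.Perm X) s x)
          = (fun s : TT => (ν ((fun x => (s : Equiv.Perm X) x) ⁻¹' {x})).toReal) s⁻¹ := by
        intro s _
        show (ν {(s : Equiv.Perm X) x}).toReal = (ν ((fun z => ((s⁻¹ : TT) : Equiv.Perm X) z) ⁻¹' {x})).toReal
        congr 2
        ext z
        rw [Set.mem_singleton_iff, Set.mem_preimage, Set.mem_singleton_iff]
        constructor
        · rintro rfl; exact inv_app _ _
        · intro h; rw [← h]; exact (app_inv _ _).symm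
      rw [Finset.sum_congr rfl h3, sum_inv S hsym (fun s : TT => (ν ((fun x => (s : Equiv.Perm X) x) ⁻¹' {x})).toReal)]
      exact h1.symm
    unfold P
    rw [h2]; ring
  have := fixed_zero (SP S) D hD hdbl m hsq hP x
  have h4 : (ν {x}).toReal = 0 := this
  rw [ENNReal.toReal_eq_zero_iff] at h4
  rcases h4 with h | h
  · exact h
  · exact absurd h (measure_ne_top _ _)

end


theorem third_notin : ((1/3 : ℝ) : X) ∉ Y := by
  rw [mem_Y]
  rintro ⟨a, n, h⟩
  have h2 : (2:ℝ) ^ n = 3 * a := by field_simp at h; linarith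
  have h3 : (2:ℤ) ^ n = 3 * a := by exact_mod_cast h2
  have h4 : (3:ℤ) ∣ 2 ^ n := ⟨a, h3⟩
  have h5 : (3:ℕ) ∣ 2 ^ n := by exact_mod_cast h4
  have h6 := Nat.Prime.dvd_of_dvd_pow Nat.prime_three h5
  omega

theorem zero_mem_Y : (0 : X) ∈ Y := ⟨0, ⟨0, 0, by simp⟩, by simp⟩

theorem final_contra
   (H : ∀ μ : TT →₀ ℝ,
      (∀ g, 0 ≤ μ g) →
      μ.support.sum (fun g => μ g) = 1 →
      (∀ g, μ g⁻¹ = μ g) →
      Subgroup.closure (↑μ.support : Set TT) = ⊤ →
      ∀ ν : Measure X, IsProbabilityMeasure ν →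
        (∀ A : Set X, MeasurableSet A →
          ν A = ∑ g ∈ μ.support, ENNReal.ofReal (μ g) * ν ((fun x => (g : Equiv.Perm X) x) ⁻¹' A)) →
        (∀ h : TT → ℝ, (∃ C : ℝ, ∀ g, |h g| ≤ C) → (∀ g, h g = ∑ s ∈ μ.support, μ s * h (g * s)) →
          ∃ f : X → ℝ, Measurable f ∧ (∃ C : ℝ, ∀ x, |f x| ≤ C) ∧
            ∀ g : TT, h g = ∫ x, f ((g : Equiv.Perm X) x) ∂ν) ∧
        (∀ f₁ f₂ : X → ℝ, Measurable f₁ → Measurable f₂ → (∃ C : ℝ, ∀ x, |f₁ x| ≤ C) →
          (∃ C : ℝ, ∀ x, |f₂ x| ≤ C) →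
          (∀ g : TT, ∫ x, f₁ ((g : Equiv.Perm X) x) ∂ν = ∫ x, f₂ ((g : Equiv.Perm X) x) ∂ν) →
          f₁ =ᵐ[ν] f₂)) : False := by
  classical
  obtain ⟨S, D, hsym, hgen, hD, hdbl⟩ := exists_S
  have hne : S.Nonempty := by
    have := hD 0
    rw [Finset.mem_map] at this
    obtain ⟨a, ha, _⟩ := this
    exact ⟨a, ha⟩
  have hcard : (0:ℝ) < S.card := by exact_mod_cast hne.card_pos
  have hSP : (SP S).Nonempty := by simpa [SP] using hne
  obtain ⟨ν, hνp, hν⟩ := exists_stationary (SP S) hSP (SP_mem S)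
  obtain ⟨Ψ, hΨ0, hΨ1, hΨ, y, hy, hyne⟩ := exists_Psi (SP S) D hD hdbl (SP_mem S)
  have hcount := TT_countable
  have c1 : ∀ g, 0 ≤ muS S g := by
    intro g
    rw [muS_apply]
    split_ifs <;> positivity
  have c2 : (muS S).support.sum (fun g => muS S g) = 1 := by
    have := muS_sum S (fun _ => 1)
    simp only [mul_one, Finset.sum_const, nsmul_eq_mul] at this
    rw [this, div_self hcard.ne']; norm_num
  have c3 : ∀ g, muS S g⁻¹ = muS S g := by
    intro g
    rw [muS_apply, muS_apply]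
    have e1 : (g⁻¹ = 1) = (g = 1) := by rw [inv_eq_one]
    have e2 : (g⁻¹ ∈ S) = (g ∈ S) := by
      refine propext ⟨fun h => ?_, hsym g⟩
      have := hsym _ h
      rwa [inv_inv] at this
    simp only [e1, e2]
  have c4 : Subgroup.closure (↑(muS S).support : Set TT) = ⊤ := by
    rw [eq_top_iff, ← hgen, Subgroup.closure_le]
    intro g hg
    refine Subgroup.subset_closure ?_
    rw [Finset.mem_coe, Finsupp.mem_support_iff, muS_apply]
    have hgS : g ∈ S := hg
    rw [if_pos hgS]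
    have : 0 < 1 / (2 * (S.card : ℝ)) := by positivity
    split_ifs <;> positivity
  have c5 : ∀ A : Set X, MeasurableSet A →
      ν A = ∑ g ∈ (muS S).support, ENNReal.ofReal (muS S g) * ν ((fun x => (g : Equiv.Perm X) x) ⁻¹' A) := by
    intro A hA
    have h1 : ∀ g ∈ (muS S).support, ENNReal.ofReal (muS S g) * ν ((fun x => (g : Equiv.Perm X) x) ⁻¹' A)
        = ENNReal.ofReal (muS S g * (ν ((fun x => (g : Equiv.Perm X) x) ⁻¹' A)).toReal) := by
      intro g _
      rw [ENNReal.ofReal_mul (c1 g), ENNReal.ofReal_toReal (measure_ne_top _ _)]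
    rw [Finset.sum_congr rfl h1, ← ENNReal.ofReal_sum_of_nonneg
      (fun g _ => mul_nonneg (c1 g) ENNReal.toReal_nonneg),
      muS_sum S (fun g => (ν ((fun x => (g : Equiv.Perm X) x) ⁻¹' A)).toReal),
      ← stat_real S hne ν hν A hA]
    have h2 : (ν ((fun x => ((1 : TT) : Equiv.Perm X) x) ⁻¹' A)).toReal = (ν A).toReal := rfl
    rw [h2, add_self_div_two, ENNReal.ofReal_toReal (measure_ne_top _ _)]
  obtain ⟨hsurj, hinj⟩ := H (muS S) c1 c2 c3 c4 ν hνp c5
  -- the harmonic function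
  set h : TT → ℝ := fun g => Ψ (act (g⁻¹ : TT) (0, 0)) with hh
  have hbdd : ∃ C : ℝ, ∀ g, |h g| ≤ C := ⟨1, fun g => by
    rw [abs_of_nonneg (hΨ0 _)]; exact hΨ1 _⟩
  have hharm : ∀ g, h g = ∑ s ∈ (muS S).support, muS S s * h (g * s) := by
    intro g
    rw [muS_sum S (fun s => h (g * s))]
    have h1 := hΨ (act (g⁻¹ : TT) (0, 0))
    unfold QQ at h1
    rw [Finset.card_map, Finset.sum_map] at h1
    have h2 : ∑ s ∈ S, h (g * s) = ∑ s ∈ S, (fun s : TT => Ψ (act s (act (g⁻¹ : TT) (0, 0)))) s⁻¹ := by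
      refine Finset.sum_congr rfl fun s _ => ?_
      show Ψ (act (((g * s)⁻¹ : TT) : Equiv.Perm X) (0, 0)) = Ψ (act ((s⁻¹ : TT) : Equiv.Perm X) (act (g⁻¹ : TT) (0, 0)))
      rw [← act_mul (s⁻¹).2 (g⁻¹).2]
      congr 2
    rw [h2, sum_inv S hsym (fun s : TT => Ψ (act s (act (g⁻¹ : TT) (0, 0))))]
    rw [mul_one]
    exact h1.symm
  obtain ⟨f, hfm, ⟨C, hfC⟩, hf⟩ := hsurj h hbdd hharm
  -- invariance under the stabiliser of the state
  have hK : ∀ k : TT, act k (0, 0) = (0, 0) → (fun x => f ((k : Equiv.Perm X) x)) =ᵐ[ν] f := by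
    intro k hk
    refine hinj _ _ (hfm.comp (cont_TT k.2).measurable) hfm ⟨C, fun x => hfC _⟩ ⟨C, hfC⟩ fun g => ?_
    have h1 := hf (k * g)
    have h2 : h (k * g) = h g := by
      show Ψ (act (((k * g)⁻¹ : TT) : Equiv.Perm X) (0, 0)) = Ψ (act ((g⁻¹ : TT) : Equiv.Perm X) (0, 0))
      have h3 : (((k * g)⁻¹ : TT) : Equiv.Perm X) = ((g⁻¹ : TT) : Equiv.Perm X) * ((k⁻¹ : TT) : Equiv.Perm X) := by
        rw [mul_inv_rev]; rfl
      rw [h3, act_mul (g⁻¹).2 (k⁻¹).2]
      have h4 : act ((k⁻¹ : TT) : Equiv.Perm X) (0, 0) = (0, 0) := by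
        have := act_inv_act k.2 (0, 0)
        rw [hk] at this
        exact this
      rw [h4]
    rw [h2, hf g] at h1
    exact h1.symm
  have hae1 : ∀ᵐ x ∂ν, ∀ k : TT, act k (0, 0) = (0, 0) → f ((k : Equiv.Perm X) x) = f x := by
    rw [ae_all_iff]
    intro k
    by_cases hk : act k (0, 0) = (0, 0)
    · filter_upwards [hK k hk] with x hx _ using hx
    · exact Filter.Eventually.of_forall fun x hx => absurd hx hk
  have hae2 : ∀ᵐ x ∂ν, x ∉ Y := by
    have hY0 : ν Y = 0 := by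
      rw [← Set.biUnion_of_singleton Y, measure_biUnion_null_iff Y_countable]
      exact fun x _ => no_atoms S D hsym hD hdbl ν hν x
    exact measure_eq_zero_iff_ae_notMem.1 hY0
  have hinv : ∀ g : TT, (fun x => f ((g : Equiv.Perm X) x)) =ᵐ[ν] f := by
    intro g
    filter_upwards [hae1, hae2] with x hx1 hx2
    have hgx : (g : Equiv.Perm X) x ∉ Y := fun hcon => hx2 ((Y_TT g.2 x).2 hcon)
    have hg0 : (g : Equiv.Perm X) 0 ∈ Y := (Y_TT g.2 0).1 zero_mem_Y
    obtain ⟨c, hc, hc1, hc2, hc3⟩ := stab_state ((g : Equiv.Perm X) x) ((g : Equiv.Perm X) 0) hgx hg0 (J g 0)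
    have h1 : act c (0, 0) = act (g : Equiv.Perm X) (0, 0) := by
      unfold act
      simp only [hc2, hc3]
    have h2 : act ((⟨c, hc⟩⁻¹ * g : TT) : Equiv.Perm X) (0, 0) = (0, 0) := by
      have h3 : ((⟨c, hc⟩⁻¹ * g : TT) : Equiv.Perm X) = c⁻¹ * (g : Equiv.Perm X) := rfl
      rw [h3, act_mul (inv_mem hc) g.2, ← h1, act_inv_act hc]
    have h3 := hx1 (⟨c, hc⟩⁻¹ * g) h2
    have h4 : ((⟨c, hc⟩⁻¹ * g : TT) : Equiv.Perm X) x = (g : Equiv.Perm X) x := by
      show c⁻¹ ((g : Equiv.Perm X) x) = (g : Equiv.Perm X) x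
      conv_lhs => rw [← hc1]
      exact inv_app c _
    rw [h4] at h3
    exact h3
  have hconst : ∀ g : TT, h g = ∫ x, f x ∂ν := by
    intro g
    rw [hf g]
    exact integral_congr_ae (hinv g)
  -- contradiction
  obtain ⟨c, hc, -, hc2, hc3⟩ := stab_state _ y third_notin hy 0
  obtain ⟨c', hc', -, hc2', hc3'⟩ := stab_state _ y third_notin hy 1
  have e1 : h ⟨c, hc⟩⁻¹ = Ψ (y, 0) := by
    show Ψ (act (((⟨c, hc⟩⁻¹)⁻¹ : TT) : Equiv.Perm X) (0, 0)) = Ψ (y, 0)
    rw [inv_inv]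
    show Ψ (c 0, 0 + J c 0) = Ψ (y, 0)
    rw [hc2, hc3]; rfl
  have e2 : h ⟨c', hc'⟩⁻¹ = Ψ (y, 1) := by
    show Ψ (act (((⟨c', hc'⟩⁻¹)⁻¹ : TT) : Equiv.Perm X) (0, 0)) = Ψ (y, 1)
    rw [inv_inv]
    show Ψ (c' 0, 0 + J c' 0) = Ψ (y, 1)
    rw [hc2', hc3']; rfl
  apply hyne
  rw [← e1, ← e2, hconst, hconst]

end Pool.Agent.Helper889
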